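import Mathlib

set_option autoImplicit false

/-! The slowly varying normalisation and a Tauberian step. -/

namespace Pool.Agent.R446.KR

open MeasureTheory Filter Topology Set

noncomputable section

def NN (q : ℕ) (T : ℝ) : ℝ := T * Real.log T ^ q

lemma NN_pos (q : ℕ) {T : ℝ} (hT : 1 < T) : 0 < NN q T := by
  unfold NN
  have := Real.log_pos hT
  positivity

lemma NN_mono (q : ℕ) {S T : ℝ} (hS : 1 ≤ S) (h : S ≤ T) : NN q S ≤ NN q T := by
  unfold NN
  have h1 := Real.log_nonneg hS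
  have h2 := Real.log_le_log (by linarith) h
  exact mul_le_mul h (pow_le_pow_left₀ h1 h2 q) (by positivity) (by linarith)

lemma NN_slow (q : ℕ) {ε : ℝ} (hε : 0 < ε) : ∃ δ T1 : ℝ, 0 < δ ∧ δ ≤ 1 / 4 ∧ 4 ≤ T1 ∧ ∀ T t : ℝ, T1 ≤ T →
    |t - T| ≤ δ * T → |NN q t - NN q T| ≤ ε * NN q T := by
  have h1 : Tendsto (fun δ : ℝ => (1 + δ) ^ (q + 1)) (𝓝 0) (𝓝 1) := by
    have : Continuous (fun δ : ℝ => (1 + δ) ^ (q + 1)) := by fun_prop
    have h := this.tendsto 0
    simpa using h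
  have h2 : Tendsto (fun δ : ℝ => (1 - 2 * δ) ^ (q + 1)) (𝓝 0) (𝓝 1) := by
    have : Continuous (fun δ : ℝ => (1 - 2 * δ) ^ (q + 1)) := by fun_prop
    have h := this.tendsto 0
    simpa using h
  have h3 : ∀ᶠ δ : ℝ in 𝓝[>] 0, (1 + δ) ^ (q + 1) < 1 + ε ∧ 1 - ε < (1 - 2 * δ) ^ (q + 1) ∧ δ < 1 / 4 ∧ 0 < δ := by
    have a1 := (h1.mono_left (nhdsWithin_le_nhds (s := Ioi 0))).eventually_lt_const (show (1:ℝ) < 1 + ε by linarith)
    have a2 := (h2.mono_left (nhdsWithin_le_nhds (s := Ioi 0))).eventually_const_lt (show 1 - ε < (1:ℝ) by linarith)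
    have a3 : ∀ᶠ δ : ℝ in 𝓝[>] 0, δ < 1 / 4 := nhdsWithin_le_nhds (eventually_lt_nhds (by norm_num))
    have a4 : ∀ᶠ δ : ℝ in 𝓝[>] 0, 0 < δ := self_mem_nhdsWithin
    filter_upwards [a1, a2, a3, a4] with δ b1 b2 b3 b4 using ⟨b1, b2, b3, b4⟩
  obtain ⟨δ, d1, d2, d3, d4⟩ := h3.exists
  refine ⟨δ, 4, d4, d3.le, le_rfl, fun T t hT ht => ?_⟩
  have hT0 : 0 < T := by linarith
  have hL1 : 1 ≤ Real.log T := by
    rw [Real.le_log_iff_exp_le hT0]
    have := Real.exp_one_lt_d9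
    linarith
  have ht1 := (abs_le.1 ht).1
  have ht2 := (abs_le.1 ht).2
  have ht3 : (1 - δ) * T ≤ t := by linarith
  have ht4 : t ≤ (1 + δ) * T := by linarith
  have ht0 : 0 < t := lt_of_lt_of_le (mul_pos (by linarith) hT0) ht3
  have hN : 0 < NN q T := NN_pos q (by linarith)
  -- logs
  have l1 : Real.log t ≤ (1 + δ) * Real.log T := by
    have h5 := Real.log_le_log ht0 ht4
    rw [Real.log_mul (by linarith) hT0.ne'] at h5
    have h6 := Real.log_le_sub_one_of_pos (show 0 < 1 + δ by linarith)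
    nlinarith
  have l2 : (1 - 2 * δ) * Real.log T ≤ Real.log t := by
    have h5 := Real.log_le_log (mul_pos (by linarith) hT0) ht3
    rw [Real.log_mul (by linarith) hT0.ne'] at h5
    have h6 := Real.one_sub_inv_le_log_of_pos (show 0 < 1 - δ by linarith)
    have h7 : (1 - δ)⁻¹ ≤ 1 + 2 * δ := by
      rw [inv_le_comm₀ (by linarith) (by linarith), ← one_div, div_le_iff₀ (by linarith)]
      nlinarith
    nlinarith
  have l3 : 0 ≤ Real.log t := le_trans (by nlinarith) l2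
  have hup : NN q t ≤ (1 + δ) ^ (q + 1) * NN q T := by
    unfold NN
    calc t * Real.log t ^ q ≤ ((1 + δ) * T) * ((1 + δ) * Real.log T) ^ q := by gcongr
      _ = (1 + δ) ^ (q + 1) * (T * Real.log T ^ q) := by rw [mul_pow]; ring
  have hlo : (1 - 2 * δ) ^ (q + 1) * NN q T ≤ NN q t := by
    unfold NN
    have h8 : 0 ≤ 1 - 2 * δ := by linarith
    calc (1 - 2 * δ) ^ (q + 1) * (T * Real.log T ^ q) = ((1 - 2 * δ) * T) * ((1 - 2 * δ) * Real.log T) ^ q := by
          rw [mul_pow]; ring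
      _ ≤ t * Real.log t ^ q := by
          gcongr
          nlinarith
  rw [abs_le]
  constructor
  · nlinarith
  · nlinarith

lemma exists_good {X a b m : ℝ} {E : Set ℝ} (hE : volume.real E ≤ m) (hEf : volume E ≠ ⊤) (hm : m < b - a)
    (h1 : X ≤ a) (h2 : b ≤ 2 * X) :
    ∃ T ∈ Icc a b, T ∈ Icc X (2 * X) ∧ T ∉ E := by
  by_contra hcon
  push Not at hcon
  have hsub : Icc a b ⊆ E := fun T hT => hcon T hT ⟨h1.trans hT.1, hT.2.trans h2⟩
  have h3 := measureReal_mono hsub hEf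
  have hm0 : 0 ≤ m := le_trans measureReal_nonneg hE
  rw [Real.volume_real_Icc_of_le (by linarith)] at h3
  linarith

lemma log_sq_small (C : ℝ) {δ : ℝ} (hδ : 0 < δ) : ∀ᶠ T : ℝ in atTop, C * Real.log T ^ 2 + 1 ≤ δ * T := by
  have h1 := (Real.isLittleO_pow_log_id_atTop (n := 2)).bound (show 0 < δ / (2 * (|C| + 1)) by positivity)
  filter_upwards [h1, eventually_ge_atTop (2 / δ), eventually_gt_atTop 0] with T h2 h3 h4
  simp only [id, Real.norm_eq_abs] at h2
  rw [abs_of_pos h4, abs_of_nonneg (by positivity)] at h2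
  rw [div_le_iff₀ hδ] at h3
  have h5 : C * Real.log T ^ 2 ≤ (|C| + 1) * Real.log T ^ 2 :=
    mul_le_mul_of_nonneg_right (by linarith [le_abs_self C]) (by positivity)
  have h6 : (|C| + 1) * Real.log T ^ 2 ≤ (|C| + 1) * (δ / (2 * (|C| + 1)) * T) :=
    mul_le_mul_of_nonneg_left h2 (by positivity)
  have h7 : (|C| + 1) * (δ / (2 * (|C| + 1)) * T) = δ * T / 2 := by field_simp
  linarith

/-- exceptional sets do not matter for monotone functions -/
theorem monotone_step {M : ℝ → ℝ} {q : ℕ} {m : ℝ} (hmono : ∀ S T : ℝ, 0 ≤ S → S ≤ T → M S ≤ M T)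
    (h : ∀ ε : ℝ, 0 < ε → ∃ C X0 : ℝ, ∀ X : ℝ, X0 ≤ X → ∃ E : Set ℝ,
      E ⊆ Icc X (2 * X) ∧ volume.real E ≤ C * Real.log X ^ 2 ∧
      ∀ T ∈ Icc X (2 * X), T ∉ E → |M T - m * NN q T| ≤ ε * NN q T) :
    Tendsto (fun T => M T / NN q T) atTop (𝓝 m) := by
  rw [Metric.tendsto_atTop]
  intro ε0 hε0
  set ε : ℝ := ε0 / (2 * (|m| + 3)) with hε
  have hεp : 0 < ε := by positivity
  obtain ⟨C, X0, hE⟩ := h (min ε 1) (by positivity)
  obtain ⟨δ, T1, hδ, hδ4, hT1, hN⟩ := NN_slow q (ε := min ε 1) (by positivity)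
  have hev := log_sq_small (max C 0) hδ
  obtain ⟨T2, hT2⟩ := eventually_atTop.1 hev
  refine ⟨max (max (2 * max X0 1) T1) (max T2 1 * 2), fun T hT => ?_⟩
  have a1 : 2 * max X0 1 ≤ T := ((le_max_left _ _).trans (le_max_left _ _)).trans hT
  have a2 : T1 ≤ T := ((le_max_right _ _).trans (le_max_left _ _)).trans hT
  have a3 : max T2 1 * 2 ≤ T := (le_max_right _ _).trans hT
  have a4 : T2 ≤ T := by have := le_max_left T2 1; have := le_max_right T2 1; linarith
  have a5 : X0 ≤ T := by have := le_max_left X0 1; have := le_max_right X0 1; linarith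
  have a6 : X0 ≤ T / 2 := by have := le_max_left X0 1; linarith
  have a7 : 1 ≤ T / 2 := by have := le_max_right X0 1; linarith
  have hT4 : 4 ≤ T := hT1.trans a2
  have hsm := hT2 T a4
  have hNT : 0 < NN q T := NN_pos q (by linarith)
  have hmin : min ε 1 ≤ ε := min_le_left _ _
  have hmin1 : min ε 1 ≤ 1 := min_le_right _ _
  have hmin0 : 0 < min ε 1 := by positivity
  have hlogT : 0 ≤ Real.log T := Real.log_nonneg (by linarith)
  have hfin : ∀ X : ℝ, ∀ E : Set ℝ, E ⊆ Icc X (2 * X) → volume E ≠ ⊤ := fun X E hEs =>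
    ne_top_of_le_ne_top (by rw [Real.volume_Icc]; exact ENNReal.ofReal_ne_top) (measure_mono hEs)
  have hCle : ∀ x : ℝ, C * Real.log x ^ 2 ≤ max C 0 * Real.log x ^ 2 := fun x =>
    mul_le_mul_of_nonneg_right (le_max_left _ _) (by positivity)
  set w : ℝ := max C 0 * Real.log T ^ 2 + 1 with hw
  have hw0 : 0 < w := by positivity
  -- upper point
  obtain ⟨E1, hE1s, hE1m, hE1⟩ := hE T a5
  obtain ⟨t1, ht1, ht1', ht1E⟩ := exists_good (X := T) (a := T) (b := T + w) (m := C * Real.log T ^ 2)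
    hE1m (hfin _ _ hE1s) (by have := hCle T; linarith) le_rfl (by nlinarith)
  have u1 := hE1 t1 ht1' ht1E
  have u2 := hN T t1 a2 (by rw [abs_le]; constructor <;> linarith [ht1.1, ht1.2, mul_pos hδ (show 0 < T by linarith)])
  -- lower point
  obtain ⟨E2, hE2s, hE2m, hE2⟩ := hE (T / 2) a6
  have hlog2 : Real.log (T / 2) ^ 2 ≤ Real.log T ^ 2 := by
    refine pow_le_pow_left₀ (Real.log_nonneg a7) (Real.log_le_log (by linarith) (by linarith)) 2
  have hm2 : C * Real.log (T / 2) ^ 2 < T - (T - w) := by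
    have := hCle (T / 2)
    have h9 : max C 0 * Real.log (T / 2) ^ 2 ≤ max C 0 * Real.log T ^ 2 :=
      mul_le_mul_of_nonneg_left hlog2 (le_max_right _ _)
    linarith
  obtain ⟨t2, ht2, ht2', ht2E⟩ := exists_good (X := T / 2) (a := T - w) (b := T) (m := C * Real.log (T / 2) ^ 2)
    hE2m (hfin _ _ hE2s) hm2 (by nlinarith) (by linarith)
  have v1 := hE2 t2 ht2' ht2E
  have v2 := hN T t2 a2 (by rw [abs_le]; constructor <;> linarith [ht2.1, ht2.2, mul_pos hδ (show 0 < T by linarith)])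
  have m1 := hmono T t1 (by linarith) ht1.1
  have m2 := hmono t2 T (by nlinarith [ht2'.1]) ht2.2
  rw [Real.dist_eq, show M T / NN q T - m = (M T - m * NN q T) / NN q T by field_simp, abs_div,
    abs_of_pos hNT, div_lt_iff₀ hNT]
  obtain ⟨e, he⟩ : ∃ e, e = min ε 1 := ⟨_, rfl⟩
  rw [← he] at u1 u2 v1 v2 hmin hmin1 hmin0
  have key : |M T - m * NN q T| ≤ (|m| + 2) * (e * NN q T) := by
    have hmb : |m * NN q t1 - m * NN q T| ≤ |m| * (e * NN q T) := by
      rw [← mul_sub, abs_mul]; exact mul_le_mul_of_nonneg_left u2 (abs_nonneg _)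
    have hmb2 : |m * NN q t2 - m * NN q T| ≤ |m| * (e * NN q T) := by
      rw [← mul_sub, abs_mul]; exact mul_le_mul_of_nonneg_left v2 (abs_nonneg _)
    have p0 : e * NN q T ≤ 1 * NN q T := mul_le_mul_of_nonneg_right hmin1 hNT.le
    have p1 : NN q t1 ≤ 2 * NN q T := by
      have := (abs_le.1 u2).2
      linarith
    have p2 : NN q t2 ≤ 2 * NN q T := by
      have := (abs_le.1 v2).2
      linarith
    have p3 : e * NN q t1 ≤ e * (2 * NN q T) := mul_le_mul_of_nonneg_left p1 hmin0.le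
    have p4 : e * NN q t2 ≤ e * (2 * NN q T) := mul_le_mul_of_nonneg_left p2 hmin0.le
    have p5 : (|m| + 2) * (e * NN q T) = |m| * (e * NN q T) + e * (2 * NN q T) := by ring
    rw [p5, abs_le]
    constructor
    · have h20 := (abs_le.1 v1).1
      have h21 := (abs_le.1 hmb2).1
      linarith
    · have h20 := (abs_le.1 u1).2
      have h21 := (abs_le.1 hmb).2
      linarith
  refine lt_of_le_of_lt key ?_
  have h10 : (|m| + 2) * (e * NN q T) ≤ (|m| + 2) * (ε * NN q T) := by gcongr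
  refine lt_of_le_of_lt h10 ?_
  have h11 : (|m| + 2) * ε < ε0 := by
    rw [hε]
    rw [mul_div_assoc', div_lt_iff₀ (by positivity)]
    nlinarith [abs_nonneg m]
  nlinarith

end

end Pool.Agent.R446.KR
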