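import Mathlib

set_option autoImplicit false

/-! Completeness of exponentials on a compact interval. -/

namespace Pool.Agent.R446.KR

open Complex Filter Topology Set

noncomputable section

/-- exponentials with frequencies in `A` approximate all exponentials uniformly on `[-K, K]` -/
def Cpl (A : Set ℝ) (K : ℝ) : Prop := ∀ α ε : ℝ, 0 < ε → ∃ (s : Finset ℝ) (c : ℝ → ℂ), (∀ a ∈ s, a ∈ A) ∧
  ∀ ξ : ℝ, |ξ| ≤ K → ‖cexp (I * α * ξ) - ∑ a ∈ s, c a * cexp (I * a * ξ)‖ ≤ ε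

lemma Cpl.mono {A B : Set ℝ} {K : ℝ} (h : Cpl A K) (hAB : A ⊆ B) : Cpl B K := by
  intro α ε hε
  obtain ⟨s, c, h1, h2⟩ := h α ε hε
  exact ⟨s, c, fun a ha => hAB (h1 a ha), h2⟩

variable {K : ℝ}

/-- the generator -/
def gf (K : ℝ) : C(Icc (-K) K, ℂ) := ⟨fun x => I * ((x : ℝ) : ℂ), by fun_prop⟩

/-- the exponential -/
def ee (K : ℝ) (z : ℂ) : C(Icc (-K) K, ℂ) := NormedSpace.exp (z • gf K)

lemma ee_apply (K : ℝ) (z : ℂ) (x : Icc (-K) K) : ee K z x = cexp (z * (I * ((x : ℝ) : ℂ))) := by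
  unfold ee
  have h := NormedSpace.map_exp (ContinuousMap.evalStarAlgHom ℂ ℂ x)
    (continuous_eval_const x) (z • gf K)
  have h2 : (ContinuousMap.evalStarAlgHom ℂ ℂ x) (NormedSpace.exp (z • gf K)) =
    (NormedSpace.exp (z • gf K)) x := rfl
  rw [← h2, h]
  rw [Complex.exp_eq_exp_ℂ]
  rfl

lemma ee_deriv (K : ℝ) (Λ : C(Icc (-K) K, ℂ) →L[ℂ] ℂ) : Differentiable ℂ (fun z => Λ (ee K z)) := by
  intro z
  have h := hasDerivAt_exp_smul_const (gf K) z
  exact (Λ.hasFDerivAt.comp_hasDerivAt z h).differentiableAt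

lemma approx_of_mem {A : Set ℝ} {α : ℝ}
    (h : ee K α ∈ closure (Submodule.span ℂ ((fun a : ℝ => ee K (a : ℂ)) '' A) : Set C(Icc (-K) K, ℂ)))
    {ε : ℝ} (hε : 0 < ε) : ∃ (s : Finset ℝ) (c : ℝ → ℂ), (∀ a ∈ s, a ∈ A) ∧
  ∀ ξ : ℝ, |ξ| ≤ K → ‖cexp (I * α * ξ) - ∑ a ∈ s, c a * cexp (I * a * ξ)‖ ≤ ε := by
  obtain ⟨q, hq, hd⟩ := Metric.mem_closure_iff.1 h ε hε
  obtain ⟨l, hl, rfl⟩ := (Finsupp.mem_span_image_iff_linearCombination ℂ).1 hq
  refine ⟨l.support, l, fun a ha => ?_, fun ξ hξ => ?_⟩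
  · exact (Finsupp.mem_supported ℂ l).1 hl ha
  have hx : ξ ∈ Icc (-K) K := abs_le.1 hξ
  have h1 := (ContinuousMap.dist_lt_iff hε).1 hd ⟨ξ, hx⟩
  rw [dist_eq_norm] at h1
  refine le_of_eq_of_le ?_ h1.le
  congr 1
  rw [ee_apply, Finsupp.linearCombination_apply, Finsupp.sum, ContinuousMap.coe_sum, Finset.sum_apply]
  congr 1
  · congr 1; ring
  · refine Finset.sum_congr rfl fun a _ => ?_
    rw [ContinuousMap.coe_smul, Pi.smul_apply, ee_apply, smul_eq_mul]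
    congr 2; ring

theorem cpl_of_infinite {A : Set ℝ} {K R : ℝ} (hA : (A ∩ Icc (-R) R).Infinite) : Cpl A K := by
  intro α ε hε
  refine approx_of_mem ?_ hε
  by_contra hn
  set p : Submodule ℂ C(Icc (-K) K, ℂ) := Submodule.span ℂ ((fun a : ℝ => ee K (a : ℂ)) '' A) with hp
  have h1 : ‖(Submodule.Quotient.mk (ee K α) : C(Icc (-K) K, ℂ) ⧸ p)‖ ≠ 0 := by
    intro h0
    exact hn ((QuotientAddGroup.norm_mk_eq_zero_iff_mem_closure (S := p.toAddSubgroup)).1 h0)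
  obtain ⟨g, -, hg⟩ := exists_dual_vector ℂ _ h1
  set Λ : C(Icc (-K) K, ℂ) →L[ℂ] ℂ := g.comp p.mkQL with hΛ
  have hd := ee_deriv K Λ
  have hz : ∀ a ∈ A, Λ (ee K (a : ℂ)) = 0 := by
    intro a ha
    have h2 : ee K (a : ℂ) ∈ p := Submodule.subset_span ⟨a, ha, rfl⟩
    have h3 : p.mkQL (ee K (a : ℂ)) = 0 := (Submodule.Quotient.mk_eq_zero p).2 h2
    rw [hΛ, ContinuousLinearMap.comp_apply, h3, map_zero]
  obtain ⟨x0, -, hx0⟩ := hA.exists_accPt_of_subset_isCompact isCompact_Icc (inter_subset_right)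
  rw [accPt_iff_frequently_nhdsNE] at hx0
  have hfr : ∃ᶠ z in 𝓝[≠] (x0 : ℂ), Λ (ee K z) = 0 := by
    have ht : Tendsto (fun x : ℝ => (x : ℂ)) (𝓝[≠] x0) (𝓝[≠] (x0 : ℂ)) := by
      refine tendsto_nhdsWithin_iff.2 ⟨(Complex.continuous_ofReal.tendsto x0).mono_left
        nhdsWithin_le_nhds, ?_⟩
      filter_upwards [self_mem_nhdsWithin] with x hx
      simpa using hx
    refine ht.frequently ?_
    exact hx0.mono fun x hx => hz x hx.1
  have hall := (hd.differentiableOn.analyticOnNhd isOpen_univ).eqOn_zero_of_preconnected_of_frequently_eq_zero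
    isPreconnected_univ (mem_univ (x0 : ℂ)) hfr
  have h4 : Λ (ee K α) = 0 := hall (mem_univ _)
  have h5 : Λ (ee K α) = ((‖(Submodule.Quotient.mk (ee K α) : C(Icc (-K) K, ℂ) ⧸ p)‖ : ℝ) : ℂ) := hg
  rw [h5] at h4
  exact h1 (by exact_mod_cast h4)

/-- lattices of small step -/
theorem cpl_of_lattice {A : Set ℝ} {K c : ℝ} (hc : 0 < c) (hK : c * K < Real.pi)
    (hA : ∀ m : ℤ, c * m ∈ A) : Cpl A K := by
  intro α ε hε
  by_cases hK0 : 0 ≤ K
  swap
  · exact ⟨∅, 0, by simp, fun ξ hξ => absurd (abs_nonneg ξ) (by linarith)⟩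
  set T : ℝ := 2 * Real.pi / c with hT
  have hT0 : 0 < T := by positivity
  have : Fact (0 < T) := ⟨hT0⟩
  have hTK : 2 * K < T := by
    rw [hT, lt_div_iff₀ hc]; linarith
  -- the embedding of the interval in the circle
  let e : Icc (-K) K → AddCircle T := fun x => ((x : ℝ) : AddCircle T)
  have hec : Continuous e := (AddCircle.continuous_mk' T).comp continuous_subtype_val
  have hinj : Function.Injective e := by
    intro x y hxy
    have h1 := (AddCircle.coe_eq_coe_iff_of_mem_Ico (p := T) (a := -K) (x := (x : ℝ)) (y := (y : ℝ))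
      ⟨x.2.1, by linarith [x.2.2]⟩ ⟨y.2.1, by linarith [y.2.2]⟩).1 hxy
    exact Subtype.ext h1
  have hemb : IsClosedEmbedding e := hec.isClosedEmbedding hinj
  obtain ⟨g, hg⟩ := ContinuousMap.exists_extension hemb (ee K α)
  have hgx : ∀ ξ : ℝ, |ξ| ≤ K → g ((ξ : ℝ) : AddCircle T) = cexp (I * α * ξ) := by
    intro ξ hξ
    have h1 := congrArg (fun F : C(Icc (-K) K, ℂ) => F ⟨ξ, abs_le.1 hξ⟩) hg
    simp only [ContinuousMap.comp_apply, ContinuousMap.coe_mk, ee_apply] at h1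
    have h2 : e ⟨ξ, abs_le.1 hξ⟩ = ((ξ : ℝ) : AddCircle T) := rfl
    rw [h2] at h1
    rw [h1]
    congr 1; ring
  have hmem : g ∈ (Submodule.span ℂ (range (fourier (T := T)))).topologicalClosure := by
    rw [span_fourier_closure_eq_top]; trivial
  have hmem2 : g ∈ closure (Submodule.span ℂ (range (fourier (T := T))) : Set C(AddCircle T, ℂ)) := hmem
  obtain ⟨q, hq, hd⟩ := Metric.mem_closure_iff.1 hmem2 ε hε
  rw [← image_univ] at hq
  obtain ⟨l, -, rfl⟩ := (Finsupp.mem_span_image_iff_linearCombination ℂ).1 hq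
  classical
  refine ⟨l.support.image (fun m : ℤ => c * (m : ℝ)), fun a => l (round (a / c)), fun a ha => ?_, fun ξ hξ => ?_⟩
  · obtain ⟨m, -, rfl⟩ := Finset.mem_image.1 ha
    exact hA m
  have h1 := (ContinuousMap.dist_lt_iff hε).1 hd ((ξ : ℝ) : AddCircle T)
  rw [dist_eq_norm, hgx ξ hξ] at h1
  refine le_of_eq_of_le ?_ h1.le
  congr 2
  rw [Finsupp.linearCombination_apply, Finsupp.sum, ContinuousMap.coe_sum, Finset.sum_apply,
    Finset.sum_image]
  · refine Finset.sum_congr rfl fun m _ => ?_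
    have hr : round (c * (m : ℝ) / c) = m := by
      rw [mul_div_cancel_left₀ _ hc.ne', round_intCast]
    simp only [hr]
    rw [ContinuousMap.coe_smul, Pi.smul_apply, fourier_coe_apply, smul_eq_mul]
    congr 2
    rw [hT]
    push_cast
    have hpi : (Real.pi : ℂ) ≠ 0 := by exact_mod_cast Real.pi_ne_zero
    have hcc : (c : ℂ) ≠ 0 := by exact_mod_cast hc.ne'
    field_simp
  · intro m _ n _ h
    have h2 : (m : ℝ) = n := mul_left_cancel₀ hc.ne' h
    exact_mod_cast h2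

end

end Pool.Agent.R446.KR
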