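import Pool.Agent.R446.KR.Trig
import Pool.Agent.R446.KR.Slow
import Pool.Agent.R446.KR.Compl

set_option autoImplicit false

/-! Rigidity of the shifted correlations. -/

namespace Pool.Agent.R446.KR

open Complex MeasureTheory Filter Topology Set Pool.Agent.TH535.SM
open scoped ComplexConjugate

noncomputable section

variable {z : ℝ → ℂ} {K : ℕ}

def Df (z : ℝ → ℂ) (K : ℕ) (α : ℝ) (s : Finset ℝ) (c : ℝ → ℂ) (T : ℝ) : ℂ :=
  cexp (I * K * α) * Cor z (α / Real.log T) T - ∑ a ∈ s, c a * (cexp (I * K * a) * Cor z (a / Real.log T) T)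

theorem rel1 (hz : ∀ u : ℕ, 1 ≤ u → ∃ G, Dat z G u K) {α : ℝ} {s : Finset ℝ} {c : ℝ → ℂ} {S : ℝ}
    (hS0 : 0 ≤ S) (hS : ∀ ξ : ℝ, |ξ| ≤ K → ‖cexp (I * α * ξ) - ∑ a ∈ s, c a * cexp (I * a * ξ)‖ ≤ S)
    {ε : ℝ} (hε : 0 < ε) : ∃ C T0 : ℝ, 0 ≤ C ∧ 1 ≤ T0 ∧ ∀ T : ℝ, T0 ≤ T →
      ‖Df z K α s c T‖ ≤ (S + ε) * M z T + C * (1 + B z T) := by
  obtain ⟨C, T0, hC, hT0, h⟩ := trig_bound hz (Finset.insertNone s) (fun o => o.elim α id)
    (fun o => o.elim 1 (fun a => -c a)) hS0 (by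
      intro ξ hξ
      refine le_of_eq_of_le ?_ (hS ξ hξ)
      rw [Finset.sum_insertNone]
      simp only [Option.elim_none, Option.elim_some, id, one_mul, neg_mul, Finset.sum_neg_distrib]
      rw [← sub_eq_add_neg]) hε
  refine ⟨C, T0, hC, hT0, fun T hT => ?_⟩
  refine le_of_eq_of_le ?_ (h T hT)
  rw [Finset.sum_insertNone]
  simp only [Option.elim_none, Option.elim_some, id, one_mul, neg_mul, Finset.sum_neg_distrib]
  rw [← sub_eq_add_neg]
  rfl

theorem rel2 (hz : ∀ u : ℕ, 1 ≤ u → ∃ G, Dat z G u K) {α : ℝ} {s : Finset ℝ} {c : ℝ → ℂ} {S : ℝ}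
    (hS0 : 0 ≤ S) (hS : ∀ ξ : ℝ, |ξ| ≤ K → ‖cexp (I * α * ξ) - ∑ a ∈ s, c a * cexp (I * a * ξ)‖ ≤ S)
    {ε : ℝ} (hε : 0 < ε) : ∃ C X0 : ℝ, 0 ≤ C ∧ 1 ≤ X0 ∧ ∀ X : ℝ, X0 ≤ X → ∃ E : Set ℝ,
      MeasurableSet E ∧ E ⊆ Icc X (2 * X) ∧ (volume : Measure ℝ).real E ≤ C * Real.log X ^ 2 ∧
      ∀ T ∈ Icc X (2 * X), T ∉ E → ‖Df z K α s c T‖ ≤ (S + ε) * M z T + C := by
  obtain ⟨C1, T0, hC1, hT0, h1⟩ := rel1 hz hS0 hS (ε := ε / 2) (by positivity)
  obtain ⟨G, D⟩ := hz 1 le_rfl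
  obtain ⟨C2, X0, hC2, hX0, h2⟩ := exc D (ε := min 1 (ε / (2 * (C1 + 1)))) (by positivity) (min_le_left _ _)
  refine ⟨max C2 (3 * C1), max T0 X0, le_max_of_le_left hC2, le_max_of_le_left hT0, fun X hX => ?_⟩
  obtain ⟨E, e1, e2, e3, e4⟩ := h2 X ((le_max_right _ _).trans hX)
  refine ⟨E, e1, e2, e3.trans (mul_le_mul_of_nonneg_right (le_max_left _ _) (by positivity)), fun T hT hTE => ?_⟩
  have hXT : T0 ≤ T := ((le_max_left _ _).trans hX).trans hT.1
  have hM := M_nonneg z (T := T) (by linarith)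
  have h3 := h1 T hXT
  have h4 := e4 T hT hTE
  have h5 : C1 * (1 + B z T) ≤ C1 * (1 + (min 1 (ε / (2 * (C1 + 1))) * M z T + 2)) := by gcongr
  have h6 : C1 * (min 1 (ε / (2 * (C1 + 1))) * M z T) ≤ ε / 2 * M z T := by
    rw [← mul_assoc]
    refine mul_le_mul_of_nonneg_right ?_ hM
    have h7 : min 1 (ε / (2 * (C1 + 1))) ≤ ε / (2 * (C1 + 1)) := min_le_right _ _
    rw [le_div_iff₀ (by positivity)] at h7
    have h8 : 0 ≤ min 1 (ε / (2 * (C1 + 1))) := by positivity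
    nlinarith
  have h9 : 3 * C1 ≤ max C2 (3 * C1) := le_max_right _ _
  calc ‖Df z K α s c T‖ ≤ (S + ε / 2) * M z T + C1 * (1 + B z T) := h3
    _ ≤ (S + ε) * M z T + max C2 (3 * C1) := by linarith

/-- the moment is bounded if one small shift is -/
theorem mbound (hz : ∀ u : ℕ, 1 ≤ u → ∃ G, Dat z G u K) {q : ℕ} {α0 b : ℝ} (h0 : |α0| * K < Real.pi / 2)
    (hb : ∀ᶠ T : ℝ in atTop, ‖Cor z (α0 / Real.log T) T‖ ≤ b * NN q T) :
    ∃ C : ℝ, 0 ≤ C ∧ ∀ᶠ T : ℝ in atTop, M z T ≤ C * NN q T := by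
  have hcos : 0 < Real.cos (K * α0) := by
    rw [← Real.cos_abs, abs_mul, Nat.abs_cast, mul_comm]
    refine Real.cos_pos_of_mem_Ioo ⟨?_, h0⟩
    have : 0 ≤ |α0| * K := by positivity
    have := Real.pi_pos
    linarith
  obtain ⟨d, hd⟩ : ∃ d, d = Real.cos (K * α0) / 2 := ⟨_, rfl⟩
  have hd0 : 0 < d := by rw [hd]; positivity
  obtain ⟨C, X0, hC, hX0, h⟩ := stage1e hz (α := α0) (by have := Real.pi_pos; linarith) hd0
  obtain ⟨G, D⟩ := hz 1 le_rfl
  obtain ⟨T1, hT1⟩ := eventually_atTop.1 hb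
  obtain ⟨T2, hT2⟩ := eventually_atTop.1 (log_sq_small C (δ := 1 / 2) (by norm_num))
  refine ⟨(|b| + C) / d * (2 * 2 ^ q), by positivity, ?_⟩
  filter_upwards [eventually_ge_atTop X0, eventually_ge_atTop T1, eventually_ge_atTop T2,
    eventually_ge_atTop 4] with X a1 a2 a3 a4
  obtain ⟨E, -, e2, e3, e4⟩ := h X a1
  have hEf : volume E ≠ ⊤ := ne_top_of_le_ne_top (by rw [Real.volume_Icc]; exact ENNReal.ofReal_ne_top)
    (measure_mono e2)
  have h5 := hT2 X a3
  obtain ⟨T, hTT, hT, hTE⟩ := exists_good (X := X) (a := X) (b := 2 * X) (m := C * Real.log X ^ 2) e3 hEf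
    (by linarith) le_rfl le_rfl
  have h6 := e4 T hT hTE
  have h7 : (cexp ((K * α0 : ℝ) * I) * Cor z (α0 / Real.log T) T).re ≤ b * NN q T := by
    refine (Complex.re_le_norm _).trans ?_
    rw [norm_mul, Complex.norm_exp_ofReal_mul_I, one_mul]
    exact hT1 T (a2.trans hT.1)
  have hN : 1 ≤ NN q T := by
    unfold NN
    have h8 : 1 ≤ Real.log T := by
      rw [Real.le_log_iff_exp_le (by linarith [hT.1])]
      have := Real.exp_one_lt_d9
      linarith [hT.1]
    have h9 : (1:ℝ) ≤ Real.log T ^ q := one_le_pow₀ h8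
    nlinarith [hT.1]
  have h10 : d * M z T ≤ (|b| + C) * NN q T := by
    have h11 : Real.cos (K * α0) - d = d := by rw [hd]; ring
    rw [h11] at h6
    have h12 : b * NN q T ≤ |b| * NN q T := mul_le_mul_of_nonneg_right (le_abs_self b) (by linarith)
    nlinarith
  have h13 : M z X ≤ M z T := M_mono D hT.1
  have h14 : NN q T ≤ NN q (2 * X) := NN_mono q (by linarith [hT.1]) hT.2
  have h15 : NN q (2 * X) ≤ 2 * 2 ^ q * NN q X := by
    unfold NN
    have h16 : Real.log (2 * X) ≤ 2 * Real.log X := by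
      rw [Real.log_mul (by norm_num) (by linarith)]
      have := Real.log_le_log (by norm_num) (show (2:ℝ) ≤ X by linarith)
      linarith
    have h17 : 0 ≤ Real.log (2 * X) := Real.log_nonneg (by linarith)
    calc 2 * X * Real.log (2 * X) ^ q ≤ 2 * X * (2 * Real.log X) ^ q := by gcongr
      _ = 2 * 2 ^ q * (X * Real.log X ^ q) := by rw [mul_pow]; ring
  have h18 : M z T ≤ (|b| + C) / d * NN q T := by
    rw [div_mul_eq_mul_div, le_div_iff₀ hd0]; linarith
  calc M z X ≤ (|b| + C) / d * NN q T := h13.trans h18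
    _ ≤ (|b| + C) / d * (2 * 2 ^ q * NN q X) := by gcongr; exact h14.trans h15
    _ = _ := by ring

lemma Cor_zero (z : ℝ → ℂ) (T : ℝ) : Cor z 0 T = ((M z T : ℝ) : ℂ) := by
  unfold Cor M
  rw [← intervalIntegral.integral_ofReal]
  refine intervalIntegral.integral_congr fun t _ => ?_
  simp only [neg_zero, add_zero]
  rw [Complex.mul_conj, Complex.normSq_eq_norm_sq]

/-- the local moment is small if the moment is asymptotic -/
theorem bsmall {G : ℂ → ℂ} {u : ℕ} (D : Dat z G u K) {q : ℕ} {m : ℝ}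
    (hm : Tendsto (fun T => M z T / NN q T) atTop (𝓝 m)) {ε : ℝ} (hε : 0 < ε) :
    ∀ᶠ T : ℝ in atTop, B z T ≤ ε * NN q T := by
  obtain ⟨C, p, hC, hB⟩ := B_split D
  have htail := tail_small C p (by linarith)
  set η : ℝ := min 1 (ε / (4 * (|m| + 3))) with hη
  have hη0 : 0 < η := by positivity
  have hη1 : η ≤ 1 := min_le_left _ _
  have hη2 : η * (4 * (|m| + 3)) ≤ ε := by
    rw [← le_div_iff₀ (by positivity)]; exact min_le_right _ _
  obtain ⟨δ, T1, hδ, hδ4, hT1, hN⟩ := NN_slow q hη0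
  obtain ⟨T2, hT2⟩ := eventually_atTop.1 (log_sq_small 1 hδ)
  have hm1 := (Metric.tendsto_atTop.1 hm) η hη0
  obtain ⟨T3, hT3⟩ := hm1
  have hNinf : Tendsto (NN q) atTop atTop := by
    refine tendsto_atTop_mono' atTop ?_ tendsto_id
    filter_upwards [eventually_ge_atTop (Real.exp 1)] with T hT
    have h1 : 1 ≤ Real.log T := by
      rwa [Real.le_log_iff_exp_le (lt_of_lt_of_le (Real.exp_pos 1) hT)]
    have h2 : (1:ℝ) ≤ Real.log T ^ q := one_le_pow₀ h1
    have h3 : 0 < T := lt_of_lt_of_le (Real.exp_pos 1) hT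
    unfold NN
    simp only [id]
    nlinarith
  filter_upwards [htail, eventually_ge_atTop T1, eventually_ge_atTop T2, eventually_ge_atTop (2 * max T3 1),
    hNinf.eventually_ge_atTop (2 / ε)] with T b1 b2 b3 b4 b5
  have hT4 : 4 ≤ T := hT1.trans b2
  have hT3' : T3 ≤ T / 2 := by have := le_max_left T3 1; linarith
  have hT0 : 0 < T := by linarith
  have hL : 1 ≤ Real.log T := by
    rw [Real.le_log_iff_exp_le hT0]
    have := Real.exp_one_lt_d9
    linarith
  set h := Real.log T with hh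
  have hh0 : 0 ≤ h := by linarith
  have hsm : h ≤ δ * T := by
    have := hT2 T b3
    nlinarith
  have hsm2 : h ≤ T / 4 := by nlinarith
  have hNT : 0 < NN q T := NN_pos q (by linarith)
  have k1 := hB T h hT0.le hh0
  have k2 : C * (1 + T) ^ p * Real.exp (-h ^ 2 / 8) ≤ 1 := by
    refine le_trans ?_ b1
    gcongr
    linarith
  -- values
  have v : ∀ t : ℝ, |t - T| ≤ h → |M z t - m * NN q T| ≤ (|m| + 2) * η * NN q T := by
    intro t ht
    have t1 := (abs_le.1 ht).1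
    have t2 := (abs_le.1 ht).2
    have h1 := hN T t b2 (ht.trans hsm)
    have h2 := hT3 t (by linarith)
    have hNt : 0 < NN q t := NN_pos q (by linarith)
    rw [Real.dist_eq, show M z t / NN q t - m = (M z t - m * NN q t) / NN q t by field_simp, abs_div,
      abs_of_pos hNt, div_lt_iff₀ hNt] at h2
    have h3 : NN q t ≤ 2 * NN q T := by
      have h4 := (abs_le.1 h1).2
      have h5 : η * NN q T ≤ 1 * NN q T := mul_le_mul_of_nonneg_right hη1 hNT.le
      linarith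
    have h6 : η * NN q t ≤ η * (2 * NN q T) := mul_le_mul_of_nonneg_left h3 hη0.le
    have h7 : |m * NN q t - m * NN q T| ≤ |m| * (η * NN q T) := by
      rw [← mul_sub, abs_mul]; exact mul_le_mul_of_nonneg_left h1 (abs_nonneg _)
    have h8 : |M z t - m * NN q T| ≤ |M z t - m * NN q t| + |m * NN q t - m * NN q T| := by
      have := abs_add_le (M z t - m * NN q t) (m * NN q t - m * NN q T)
      simpa using this
    have h9 : (|m| + 2) * η * NN q T = |m| * (η * NN q T) + η * (2 * NN q T) := by ring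
    linarith
  have v1 := (abs_le.1 (v (T + h) (by rw [add_sub_cancel_left, abs_of_nonneg hh0]))).2
  have v2 := (abs_le.1 (v (T - h) (by rw [sub_sub_cancel_left, abs_neg, abs_of_nonneg hh0]))).1
  rw [div_le_iff₀ hε] at b5
  have h10 : 2 * ((|m| + 2) * η * NN q T) ≤ ε / 2 * NN q T := by
    have h11 : 2 * ((|m| + 2) * η) ≤ ε / 2 := by nlinarith [abs_nonneg m]
    have := mul_le_mul_of_nonneg_right h11 hNT.le
    linarith
  linarith

/-- combination of the two linear relations -/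
lemma combine {G : ℝ → ℂ} (α : ℝ) (s : Finset ℝ) (c : ℝ → ℂ) {N : ℝ} (hN : 0 < N) (T : ℝ) :
    ‖Cor z (α / Real.log T) T / (N : ℂ) - G α‖ ≤ ‖Df z K α s c T‖ / N +
      ‖cexp (I * K * α) * G α - ∑ a ∈ s, c a * (cexp (I * K * a) * G a)‖ +
      ∑ a ∈ s, ‖c a‖ * ‖Cor z (a / Real.log T) T / (N : ℂ) - G a‖ := by
  have hNc : (N : ℂ) ≠ 0 := by exact_mod_cast hN.ne'
  have hn : ∀ a : ℝ, ‖cexp (I * K * a)‖ = 1 := by
    intro a
    have : (I * K * a : ℂ) = ((K * a : ℝ) : ℂ) * I := by push_cast; ring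
    rw [this, Complex.norm_exp_ofReal_mul_I]
  have e : cexp (I * K * α) * (Cor z (α / Real.log T) T / (N : ℂ) - G α) =
      Df z K α s c T / (N : ℂ) - (cexp (I * K * α) * G α - ∑ a ∈ s, c a * (cexp (I * K * a) * G a)) +
      ∑ a ∈ s, c a * (cexp (I * K * a) * (Cor z (a / Real.log T) T / (N : ℂ) - G a)) := by
    have e2 : ∑ a ∈ s, c a * (cexp (I * K * a) * (Cor z (a / Real.log T) T / (N : ℂ) - G a)) =
        (∑ a ∈ s, c a * (cexp (I * K * a) * Cor z (a / Real.log T) T)) / (N : ℂ) -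
        ∑ a ∈ s, c a * (cexp (I * K * a) * G a) := by
      rw [Finset.sum_div, ← Finset.sum_sub_distrib]
      exact Finset.sum_congr rfl fun a _ => by ring
    rw [e2]
    unfold Df
    ring
  have e3 : ‖Cor z (α / Real.log T) T / (N : ℂ) - G α‖ =
      ‖cexp (I * K * α) * (Cor z (α / Real.log T) T / (N : ℂ) - G α)‖ := by
    rw [norm_mul, hn, one_mul]
  rw [e3, e]
  refine (norm_add_le _ _).trans (add_le_add ((norm_sub_le _ _).trans (add_le_add ?_ le_rfl)) ?_)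
  · rw [norm_div, Complex.norm_real, Real.norm_of_nonneg hN.le]
  · refine (norm_sum_le _ _).trans (Finset.sum_le_sum fun a _ => ?_)
    rw [norm_mul, norm_mul, hn, one_mul]

/-- rigidity -/
theorem rigid (hz : ∀ u : ℕ, 1 ≤ u → ∃ G, Dat z G u K) {q : ℕ} {A : Set ℝ} (hA : Cpl A K) {α0 : ℝ}
    (h0A : α0 ∈ A) (h0 : |α0| * K < Real.pi / 2) {G : ℝ → ℂ} {g : ℝ} (hg : 0 ≤ g)
    (hG : ∀ (α : ℝ) (s : Finset ℝ) (c : ℝ → ℂ) (S : ℝ), 0 ≤ S →
      (∀ ξ : ℝ, |ξ| ≤ K → ‖cexp (I * α * ξ) - ∑ a ∈ s, c a * cexp (I * a * ξ)‖ ≤ S) →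
      ‖cexp (I * K * α) * G α - ∑ a ∈ s, c a * (cexp (I * K * a) * G a)‖ ≤ S * g)
    (hlim : ∀ a ∈ A, Tendsto (fun T : ℝ => Cor z (a / Real.log T) T / ((NN q T : ℝ) : ℂ)) atTop (𝓝 (G a))) :
    ∀ α : ℝ, Tendsto (fun T : ℝ => Cor z (α / Real.log T) T / ((NN q T : ℝ) : ℂ)) atTop (𝓝 (G α)) := by
  -- boundedness of the moment
  obtain ⟨b, hb⟩ : ∃ b : ℝ, ∀ᶠ T : ℝ in atTop, M z T ≤ b * NN q T ∧ 0 ≤ b := by
    have h1 := (hlim α0 h0A).norm.eventually_lt_const (lt_add_one _)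
    obtain ⟨C, hC, h2⟩ := mbound hz (q := q) (α0 := α0) (b := ‖G α0‖ + 1) h0 (by
      filter_upwards [h1, eventually_gt_atTop 1] with T h3 h4
      have hN := NN_pos q h4
      rw [norm_div, Complex.norm_real, Real.norm_of_nonneg hN.le, div_lt_iff₀ hN] at h3
      exact h3.le)
    exact ⟨C, h2.mono fun T h => ⟨h, hC⟩⟩
  have hb0 : 0 ≤ b := by obtain ⟨T, hT⟩ := hb.exists; exact hT.2
  have hNinf : Tendsto (NN q) atTop atTop := by
    refine tendsto_atTop_mono' atTop ?_ tendsto_id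
    filter_upwards [eventually_ge_atTop (Real.exp 1)] with T hT
    have h1 : 1 ≤ Real.log T := by
      rwa [Real.le_log_iff_exp_le (lt_of_lt_of_le (Real.exp_pos 1) hT)]
    have h2 : (1:ℝ) ≤ Real.log T ^ q := one_le_pow₀ h1
    have h3 : 0 < T := lt_of_lt_of_le (Real.exp_pos 1) hT
    unfold NN
    simp only [id]
    nlinarith
  have hsmall : ∀ (s : Finset ℝ) (c : ℝ → ℂ), (∀ a ∈ s, a ∈ A) → ∀ ε : ℝ, 0 < ε → ∀ᶠ T : ℝ in atTop,
      ∑ a ∈ s, ‖c a‖ * ‖Cor z (a / Real.log T) T / ((NN q T : ℝ) : ℂ) - G a‖ < ε := by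
    intro s c hs ε hε
    have h1 : Tendsto (fun T : ℝ => ∑ a ∈ s, ‖c a‖ * ‖Cor z (a / Real.log T) T / ((NN q T : ℝ) : ℂ) - G a‖)
        atTop (𝓝 (∑ a ∈ s, ‖c a‖ * 0)) := by
      refine tendsto_finsetSum _ fun a ha => ?_
      refine Tendsto.const_mul _ ?_
      exact tendsto_iff_norm_sub_tendsto_zero.1 (hlim a (hs a ha))
    simp only [mul_zero, Finset.sum_const_zero] at h1
    exact h1.eventually_lt_const hε
  -- the unshifted case outside exceptional sets
  have hM0 : Tendsto (fun T => M z T / NN q T) atTop (𝓝 (G 0).re) := by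
    obtain ⟨G1, D⟩ := hz 1 le_rfl
    refine monotone_step (fun S T _ h => M_mono D h) fun ε hε => ?_
    set η : ℝ := ε / (4 * (2 * b + g + 1)) with hη
    have hη0 : 0 < η := by positivity
    obtain ⟨s, c, hs, hc⟩ := hA 0 η hη0
    obtain ⟨C, X0, hC, hX0, h1⟩ := rel2 hz hη0.le hc hη0
    obtain ⟨T1, hT1⟩ := eventually_atTop.1 (hsmall s c hs (ε / 4) (by positivity))
    obtain ⟨T2, hT2⟩ := eventually_atTop.1 hb
    obtain ⟨T3, hT3⟩ := eventually_atTop.1 (hNinf.eventually_ge_atTop (4 * C / ε))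
    refine ⟨C, max (max X0 T1) (max (max T2 T3) 2), fun X hX => ?_⟩
    have x1 : X0 ≤ X := ((le_max_left _ _).trans (le_max_left _ _)).trans hX
    have x2 : T1 ≤ X := ((le_max_right _ _).trans (le_max_left _ _)).trans hX
    have x3 : T2 ≤ X := (((le_max_left _ _).trans (le_max_left _ _)).trans (le_max_right _ _)).trans hX
    have x4 : T3 ≤ X := (((le_max_right _ _).trans (le_max_left _ _)).trans (le_max_right _ _)).trans hX
    have x5 : 2 ≤ X := ((le_max_right _ _).trans (le_max_right _ _)).trans hX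
    obtain ⟨E, -, e2, e3, e4⟩ := h1 X x1
    refine ⟨E, e2, e3, fun T hT hTE => ?_⟩
    have hN : 0 < NN q T := NN_pos q (by linarith [hT.1])
    have y1 := e4 T hT hTE
    have y2 := hT1 T (x2.trans hT.1)
    have y3 := (hT2 T (x3.trans hT.1)).1
    have y4 := hT3 T (x4.trans hT.1)
    have y5 := combine (z := z) (K := K) (G := G) 0 s c hN T
    have y6 := hG 0 s c η hη0.le hc
    have y7 : ‖Df z K 0 s c T‖ / NN q T ≤ (η + η) * b + ε / 4 := by
      rw [div_le_iff₀ hN]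
      have y8 : (η + η) * M z T ≤ (η + η) * (b * NN q T) := mul_le_mul_of_nonneg_left y3 (by positivity)
      have y9 : C ≤ ε / 4 * NN q T := by
        rw [div_le_iff₀ hε] at y4; linarith
      linarith
    have y10 : (η + η) * b + η * g ≤ ε / 4 := by
      have : η * (4 * (2 * b + g + 1)) = ε := by rw [hη]; field_simp
      nlinarith
    have y11 : ‖Cor z (0 / Real.log T) T / ((NN q T : ℝ) : ℂ) - G 0‖ ≤ ε := by linarith
    rw [zero_div, Cor_zero] at y11
    have y12 : |(((M z T : ℝ) : ℂ) / ((NN q T : ℝ) : ℂ) - G 0).re| ≤ ε := (Complex.abs_re_le_norm _).trans y11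
    rw [← Complex.ofReal_div, Complex.sub_re, Complex.ofReal_re] at y12
    rw [show M z T - (G 0).re * NN q T = (M z T / NN q T - (G 0).re) * NN q T by field_simp, abs_mul,
      abs_of_pos hN]
    exact mul_le_mul_of_nonneg_right y12 hN.le
  intro α
  rw [Metric.tendsto_atTop]
  intro ε hε
  set η : ℝ := ε / (8 * (2 * b + g + 1)) with hη
  have hη0 : 0 < η := by positivity
  obtain ⟨s, c, hs, hc⟩ := hA α η hη0
  obtain ⟨C, T0, hC, hT0, h1⟩ := rel1 hz hη0.le hc hη0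
  obtain ⟨G1, D⟩ := hz 1 le_rfl
  have hBs := bsmall D hM0 (ε := ε / (8 * (C + 1))) (by positivity)
  have hev : ∀ᶠ T : ℝ in atTop, dist (Cor z (α / Real.log T) T / ((NN q T : ℝ) : ℂ)) (G α) < ε := by
    filter_upwards [hBs, hsmall s c hs (ε / 8) (by positivity), hb, hNinf.eventually_ge_atTop (8 * C / ε),
      eventually_ge_atTop T0, eventually_gt_atTop 1] with T c1 c2 c3 c4 c5 c6
    have hN : 0 < NN q T := NN_pos q c6
    have y1 := h1 T c5
    have y5 := combine (z := z) (K := K) (G := G) α s c hN T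
    have y6 := hG α s c η hη0.le hc
    have y7 : ‖Df z K α s c T‖ / NN q T ≤ (η + η) * b + ε / 4 := by
      rw [div_le_iff₀ hN]
      have y8 : (η + η) * M z T ≤ (η + η) * (b * NN q T) := mul_le_mul_of_nonneg_left c3.1 (by positivity)
      have y9 : C ≤ ε / 8 * NN q T := by
        rw [div_le_iff₀ hε] at c4; linarith
      have y10 : C * B z T ≤ ε / 8 * NN q T := by
        have y11 : C * B z T ≤ C * (ε / (8 * (C + 1)) * NN q T) := mul_le_mul_of_nonneg_left c1 hC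
        have y12 : C * (ε / (8 * (C + 1)) * NN q T) = ε / 8 * NN q T * (C / (C + 1)) := by
          field_simp
        have y13 : C / (C + 1) ≤ 1 := by rw [div_le_one (by linarith)]; linarith
        have y14 : ε / 8 * NN q T * (C / (C + 1)) ≤ ε / 8 * NN q T * 1 :=
          mul_le_mul_of_nonneg_left y13 (by positivity)
        linarith
      linarith
    have y10 : (η + η) * b + η * g ≤ ε / 8 := by
      have : η * (8 * (2 * b + g + 1)) = ε := by rw [hη]; field_simp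
      nlinarith
    rw [dist_eq_norm]
    linarith
  exact eventually_atTop.1 hev

end

end Pool.Agent.R446.KR
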