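import Mathlib

set_option autoImplicit false

/-! The moments `W_k(α, N)` of characteristic polynomials over `U(N)`. -/

namespace Pool.Agent.R446.KR

open Complex MeasureTheory Filter Topology Set
open scoped ComplexConjugate Matrix

noncomputable section

/-- the Borel σ-algebra of `U(N)` -/
instance instMeasUN (N : ℕ) : MeasurableSpace (Matrix.unitaryGroup (Fin N) ℂ) := borel _

instance instBorelUN (N : ℕ) : BorelSpace (Matrix.unitaryGroup (Fin N) ℂ) := ⟨rfl⟩

instance instCompactUN (N : ℕ) : CompactSpace (Matrix.unitaryGroup (Fin N) ℂ) := by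
  refine isCompact_iff_compactSpace.1 ?_
  have h1 : IsCompact (Set.pi univ (fun _ : Fin N => Set.pi univ (fun _ : Fin N =>
      Metric.closedBall (0:ℂ) 1)) : Set (Matrix (Fin N) (Fin N) ℂ)) :=
    isCompact_univ_pi fun _ => isCompact_univ_pi fun _ => isCompact_closedBall _ _
  refine h1.of_isClosed_subset (isClosed_unitary (R := Matrix (Fin N) (Fin N) ℂ)) ?_
  intro U hU
  simp only [Set.mem_pi, mem_univ, true_implies, mem_closedBall_zero_iff]
  intro i j
  exact entry_norm_bound_of_unitary hU i j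

/-- the normalised Haar measure of `U(N)` -/
def haarU (N : ℕ) : Measure (Matrix.unitaryGroup (Fin N) ℂ) := Measure.haarMeasure ⊤

instance (N : ℕ) : IsProbabilityMeasure (haarU N) := by
  refine ⟨?_⟩
  have h := Measure.haarMeasure_self (K₀ := (⊤ : TopologicalSpace.PositiveCompacts (Matrix.unitaryGroup (Fin N) ℂ)))
  unfold haarU
  exact h

instance (N : ℕ) : (haarU N).IsMulLeftInvariant := by unfold haarU; infer_instance

/-- `W_k(α, N)` of the problem -/
def Wk (k : ℕ) (α : ℝ) (N : ℕ) : ℂ :=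
  ((N : ℂ) ^ (k ^ 2))⁻¹ * ∫ U : Matrix.unitaryGroup (Fin N) ℂ,
    (1 - cexp (-(I * α / N)) • (U : Matrix (Fin N) (Fin N) ℂ)).det ^ k *
      (1 - cexp (-(I * α / N)) • (U : Matrix (Fin N) (Fin N) ℂ)ᴴ).det ^ k ∂(haarU N)

/-- the integrand -/
def ig (k N : ℕ) (x : ℂ) (U : Matrix (Fin N) (Fin N) ℂ) : ℂ :=
  (1 - x • U).det ^ k * (1 - x • Uᴴ).det ^ k

/-- the polynomial `det(1 - X U)^k` -/
def pp (k : ℕ) {N : ℕ} (U : Matrix (Fin N) (Fin N) ℂ) : Polynomial ℂ :=
  ((Polynomial.X : Polynomial ℂ) • (-U).map Polynomial.C + (1 : Matrix (Fin N) (Fin N) ℂ).map Polynomial.C).det ^ k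

lemma pp_eval (k : ℕ) {N : ℕ} (U : Matrix (Fin N) (Fin N) ℂ) (x : ℂ) :
    (pp k U).eval x = (1 - x • U).det ^ k := by
  unfold pp
  rw [Polynomial.eval_pow]
  congr 1
  rw [← Polynomial.coe_evalRingHom, RingHom.map_det]
  congr 1
  ext i j
  simp [Matrix.map_apply, Matrix.one_apply]
  split_ifs <;> simp <;> ring

lemma pp_deg (k : ℕ) {N : ℕ} (U : Matrix (Fin N) (Fin N) ℂ) : (pp k U).natDegree < k * N + 1 := by
  unfold pp
  refine Nat.lt_succ_of_le ((Polynomial.natDegree_pow_le).trans ?_)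
  refine Nat.mul_le_mul_left k ?_
  have := Polynomial.natDegree_det_X_add_C_le (-U) (1 : Matrix (Fin N) (Fin N) ℂ)
  simpa using this

lemma det_conj {N : ℕ} (U : Matrix (Fin N) (Fin N) ℂ) (x : ℂ) :
    (1 - x • Uᴴ).det = conj ((1 - conj x • U).det) := by
  have h : (1 - x • Uᴴ) = (1 - conj x • U)ᴴ := by
    rw [Matrix.conjTranspose_sub, Matrix.conjTranspose_one, Matrix.conjTranspose_smul]
    simp
  rw [h, Matrix.det_conjTranspose]
  rfl

lemma ig_eq (k : ℕ) {N : ℕ} (U : Matrix (Fin N) (Fin N) ℂ) (x ζ : ℂ) :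
    ig k N x (ζ • U) = (pp k U).eval (ζ * x) * conj ((pp k U).eval (ζ * conj x)) := by
  unfold ig
  rw [det_conj, pp_eval, pp_eval, smul_smul, smul_smul, map_pow, mul_comm x ζ, mul_comm (conj x) ζ]

/-- averaging over the roots of unity -/
lemma avg (p : Polynomial ℂ) {n : ℕ} (hn : p.natDegree < n) (x : ℂ) :
    ∑ l ∈ Finset.range n, p.eval (cexp (2 * Real.pi * I * l / n) * x) *
      conj (p.eval (cexp (2 * Real.pi * I * l / n) * conj x)) =
      n * ∑ m ∈ Finset.range n, ((‖p.coeff m‖ ^ 2 : ℝ) : ℂ) * x ^ (2 * m) := by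
  have hn0 : 0 < n := by omega
  have hnc : (n : ℂ) ≠ 0 := by exact_mod_cast hn0.ne'
  have e1 : ∀ l ∈ Finset.range n, p.eval (cexp (2 * Real.pi * I * l / n) * x) *
      conj (p.eval (cexp (2 * Real.pi * I * l / n) * conj x)) =
      ∑ m ∈ Finset.range n, ∑ m' ∈ Finset.range n, (p.coeff m * conj (p.coeff m') * x ^ (m + m')) *
        (cexp (2 * Real.pi * I * ((m : ℂ) - m') / n)) ^ l := by
    intro l _
    rw [Polynomial.eval_eq_sum_range' hn, Polynomial.eval_eq_sum_range' hn, map_sum, Finset.sum_mul_sum]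
    refine Finset.sum_congr rfl fun m _ => Finset.sum_congr rfl fun m' _ => ?_
    rw [map_mul, map_pow, map_mul, Complex.conj_conj, ← Complex.exp_conj, mul_pow, mul_pow,
      ← Complex.exp_nat_mul, ← Complex.exp_nat_mul, ← Complex.exp_nat_mul]
    have e2 : (starRingEnd ℂ) (2 * Real.pi * I * l / n) = -(2 * Real.pi * I * l / n) := by
      simp only [map_div₀, map_mul, Complex.conj_ofReal, Complex.conj_I, map_natCast, map_ofNat]
      ring
    rw [e2]
    have e3 : (l : ℂ) * (2 * Real.pi * I * ((m : ℂ) - m') / n) =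
        (m : ℂ) * (2 * Real.pi * I * l / n) + (m' : ℂ) * (-(2 * Real.pi * I * l / n)) := by ring
    rw [e3, Complex.exp_add, pow_add]
    ring
  rw [Finset.sum_congr rfl e1, Finset.sum_comm, Finset.mul_sum]
  refine Finset.sum_congr rfl fun m hm => ?_
  rw [Finset.sum_comm]
  rw [Finset.sum_eq_single m]
  · simp only [sub_self, mul_zero, zero_div, Complex.exp_zero, one_pow, mul_one, Finset.sum_const,
      Finset.card_range, nsmul_eq_mul]
    rw [Complex.mul_conj, Complex.normSq_eq_norm_sq, two_mul]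
  · intro m' hm' hne
    rw [← Finset.mul_sum]
    have hm1 := Finset.mem_range.1 hm
    have hm2 := Finset.mem_range.1 hm'
    set r : ℂ := cexp (2 * Real.pi * I * ((m : ℂ) - m') / n) with hr
    have hrn : r ^ n = 1 := by
      rw [hr, ← Complex.exp_nat_mul]
      rw [Complex.exp_eq_one_iff]
      refine ⟨(m : ℤ) - m', ?_⟩
      push_cast
      field_simp
    have hr1 : r ≠ 1 := by
      intro h
      rw [hr, Complex.exp_eq_one_iff] at h
      obtain ⟨q, hq⟩ := h
      have hpi : (Real.pi : ℂ) ≠ 0 := by exact_mod_cast Real.pi_ne_zero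
      have h2 : ((m : ℂ) - m') = q * n := by
        have h3 : (2 * Real.pi * I) * (((m : ℂ) - m') / n) = (2 * Real.pi * I) * q := by
          rw [← mul_div_assoc, hq]; ring
        have h4 := mul_left_cancel₀ Complex.two_pi_I_ne_zero h3
        rw [div_eq_iff hnc] at h4
        exact h4
      have h5 : ((m : ℤ) - m') = q * n := by exact_mod_cast h2
      have hq0 : q = 0 := by
        by_contra hq0
        have h6 : |q * (n : ℤ)| ≥ n := by
          rw [abs_mul, Nat.abs_cast]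
          have : 1 ≤ |q| := Int.one_le_abs hq0
          nlinarith
        rw [← h5] at h6
        have h7 : |(m : ℤ) - m'| < n := by rw [abs_lt]; constructor <;> omega
        omega
      rw [hq0, zero_mul] at h5
      omega
    have h8 : ∑ i ∈ Finset.range n, r ^ i = 0 := by
      rw [geom_sum_eq hr1, hrn, sub_self, zero_div]
    rw [h8, mul_zero]
  · intro h; exact absurd hm h

/-- scalar unitary matrices -/
def sc (N : ℕ) (θ : ℝ) : Matrix.unitaryGroup (Fin N) ℂ :=
  ⟨cexp (θ * I) • 1, by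
    rw [Matrix.mem_unitaryGroup_iff, star_smul, star_one, smul_mul_smul_comm, one_mul]
    have : cexp (θ * I) * star (cexp (θ * I)) = 1 := by
      have h := Complex.mul_conj (cexp (θ * I))
      rw [Complex.normSq_eq_norm_sq, Complex.norm_exp_ofReal_mul_I] at h
      simpa using h
    rw [this, one_smul]⟩

lemma sc_mul (N : ℕ) (θ : ℝ) (U : Matrix.unitaryGroup (Fin N) ℂ) :
    ((sc N θ * U : Matrix.unitaryGroup (Fin N) ℂ) : Matrix (Fin N) (Fin N) ℂ) = cexp (θ * I) • (U : Matrix (Fin N) (Fin N) ℂ) := by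
  unfold sc
  rw [Submonoid.coe_mul, smul_mul_assoc, one_mul]

lemma ig_cont (k N : ℕ) (x : ℂ) : Continuous (fun U : Matrix.unitaryGroup (Fin N) ℂ => ig k N x (U : Matrix (Fin N) (Fin N) ℂ)) := by
  unfold ig
  have h : Continuous (fun U : Matrix.unitaryGroup (Fin N) ℂ => (U : Matrix (Fin N) (Fin N) ℂ)) := continuous_subtype_val
  refine Continuous.mul ?_ ?_
  · exact ((continuous_const.sub (h.const_smul x)).matrix_det).pow k
  · exact ((continuous_const.sub ((h.matrix_conjTranspose).const_smul x)).matrix_det).pow k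

lemma cont_int {N : ℕ} {f : Matrix.unitaryGroup (Fin N) ℂ → ℂ} (hf : Continuous f) : Integrable f (haarU N) :=
  hf.integrable_of_hasCompactSupport (HasCompactSupport.of_compactSpace f)

/-- the averaged integrand -/
def av (k N : ℕ) (x : ℂ) (U : Matrix.unitaryGroup (Fin N) ℂ) : ℂ :=
  ∑ m ∈ Finset.range (k * N + 1), ((‖(pp k (U : Matrix (Fin N) (Fin N) ℂ)).coeff m‖ ^ 2 : ℝ) : ℂ) * x ^ (2 * m)

lemma av_eq (k N : ℕ) (x : ℂ) (U : Matrix.unitaryGroup (Fin N) ℂ) :
    av k N x U = ((k * N + 1 : ℕ) : ℂ)⁻¹ * ∑ l ∈ Finset.range (k * N + 1),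
      ig k N x ((sc N (2 * Real.pi * l / (k * N + 1 : ℕ)) * U : Matrix.unitaryGroup (Fin N) ℂ) : Matrix (Fin N) (Fin N) ℂ) := by
  have hn : ((k * N + 1 : ℕ) : ℂ) ≠ 0 := Nat.cast_ne_zero.2 (Nat.succ_ne_zero (k * N))
  rw [eq_inv_mul_iff_mul_eq₀ hn]
  unfold av
  rw [← avg _ (pp_deg k (U : Matrix (Fin N) (Fin N) ℂ)) x]
  refine Finset.sum_congr rfl fun l _ => ?_
  rw [sc_mul, ig_eq]
  have e : cexp (((2 * Real.pi * l / (k * N + 1 : ℕ) : ℝ) : ℂ) * I) =
      cexp (2 * Real.pi * I * l / (k * N + 1 : ℕ)) := by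
    congr 1; push_cast; ring
  rw [e]

lemma av_cont (k N : ℕ) (x : ℂ) : Continuous (av k N x) := by
  have e : av k N x = fun U => ((k * N + 1 : ℕ) : ℂ)⁻¹ * ∑ l ∈ Finset.range (k * N + 1),
      ig k N x ((sc N (2 * Real.pi * l / (k * N + 1 : ℕ)) * U : Matrix.unitaryGroup (Fin N) ℂ) : Matrix (Fin N) (Fin N) ℂ) := by
    funext U; exact av_eq k N x U
  rw [e]
  refine continuous_const.mul (continuous_finsetSum _ fun l _ => ?_)
  exact (ig_cont k N x).comp (continuous_const.mul continuous_id)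

lemma av_int (k N : ℕ) (x : ℂ) : ∫ U, ig k N x (U : Matrix (Fin N) (Fin N) ℂ) ∂(haarU N) = ∫ U, av k N x U ∂(haarU N) := by
  have hn : ((k * N + 1 : ℕ) : ℂ) ≠ 0 := Nat.cast_ne_zero.2 (Nat.succ_ne_zero (k * N))
  simp_rw [av_eq]
  rw [integral_const_mul, integral_finsetSum]
  · have h : ∀ l ∈ Finset.range (k * N + 1), ∫ U, ig k N x ((sc N (2 * Real.pi * l / (k * N + 1 : ℕ)) * U :
        Matrix.unitaryGroup (Fin N) ℂ) : Matrix (Fin N) (Fin N) ℂ) ∂(haarU N) =
        ∫ U, ig k N x (U : Matrix (Fin N) (Fin N) ℂ) ∂(haarU N) := by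
      intro l _
      exact integral_mul_left_eq_self (μ := haarU N)
        (fun U : Matrix.unitaryGroup (Fin N) ℂ => ig k N x (U : Matrix (Fin N) (Fin N) ℂ))
        (sc N (2 * Real.pi * l / (k * N + 1 : ℕ)))
    rw [Finset.sum_congr rfl h, Finset.sum_const, Finset.card_range, nsmul_eq_mul, inv_mul_cancel_left₀ hn]
  · intro l _
    exact cont_int ((ig_cont k N x).comp (continuous_const.mul continuous_id))

/-- the trigonometric polynomial inequality for `W_k(·, N)` -/
theorem W_trig (k : ℕ) {N : ℕ} (hN : 1 ≤ N) {ι : Type} (s : Finset ι) (α : ι → ℝ) (c : ι → ℂ) {S : ℝ}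
    (hS : ∀ ξ : ℝ, |ξ| ≤ k → ‖∑ j ∈ s, c j * cexp (I * α j * ξ)‖ ≤ S) :
    ‖∑ j ∈ s, c j * (cexp (I * k * α j) * Wk k (α j) N)‖ ≤ S * ‖Wk k 0 N‖ := by
  have hN0 : (0:ℝ) < N := by exact_mod_cast hN
  have hNc : (N : ℂ) ≠ 0 := by exact_mod_cast hN0.ne'
  have hW : ∀ a : ℝ, Wk k a N = ((N : ℂ) ^ (k ^ 2))⁻¹ * ∫ U, av k N (cexp (-(I * a / N))) U ∂(haarU N) := by
    intro a
    rw [← av_int]; rfl
  have e1 : ∑ j ∈ s, c j * (cexp (I * k * α j) * Wk k (α j) N) = ((N : ℂ) ^ (k ^ 2))⁻¹ *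
      ∫ U, ∑ j ∈ s, c j * (cexp (I * k * α j) * av k N (cexp (-(I * α j / N))) U) ∂(haarU N) := by
    rw [integral_finsetSum _ fun j _ => (((cont_int (av_cont k N _)).const_mul _).const_mul _), Finset.mul_sum]
    refine Finset.sum_congr rfl fun j _ => ?_
    rw [integral_const_mul, integral_const_mul, hW]
    ring
  have e2 : ∀ U : Matrix.unitaryGroup (Fin N) ℂ,
      ‖∑ j ∈ s, c j * (cexp (I * k * α j) * av k N (cexp (-(I * α j / N))) U)‖ ≤ S * (av k N 1 U).re := by
    intro U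
    have e3 : ∑ j ∈ s, c j * (cexp (I * k * α j) * av k N (cexp (-(I * α j / N))) U) =
        ∑ m ∈ Finset.range (k * N + 1), ((‖(pp k (U : Matrix (Fin N) (Fin N) ℂ)).coeff m‖ ^ 2 : ℝ) : ℂ) *
          ∑ j ∈ s, c j * cexp (I * α j * ((k - 2 * m / N : ℝ) : ℂ)) := by
      unfold av
      simp_rw [Finset.mul_sum]
      rw [Finset.sum_comm]
      refine Finset.sum_congr rfl fun m _ => Finset.sum_congr rfl fun j _ => ?_
      rw [← Complex.exp_nat_mul]
      have e4 : I * α j * ((k - 2 * m / N : ℝ) : ℂ) = I * k * α j + ((2 * m : ℕ) : ℂ) * (-(I * α j / N)) := by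
        push_cast
        field_simp
        ring
      rw [e4, Complex.exp_add]
      ring
    rw [e3]
    have e5 : (av k N 1 U).re = ∑ m ∈ Finset.range (k * N + 1), ‖(pp k (U : Matrix (Fin N) (Fin N) ℂ)).coeff m‖ ^ 2 := by
      unfold av
      simp only [one_pow, mul_one]
      rw [← Complex.ofReal_sum, Complex.ofReal_re]
    rw [e5, Finset.mul_sum]
    refine (norm_sum_le _ _).trans (Finset.sum_le_sum fun m hm => ?_)
    rw [norm_mul, Complex.norm_real, Real.norm_of_nonneg (by positivity), mul_comm]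
    refine mul_le_mul_of_nonneg_right (hS _ ?_) (by positivity)
    have hm1 : m ≤ k * N := by have := Finset.mem_range.1 hm; omega
    have hm2 : (m : ℝ) ≤ k * N := by exact_mod_cast hm1
    have hm3 : 2 * (m : ℝ) / N ≤ 2 * k := by rw [div_le_iff₀ hN0]; linarith
    have hm4 : 0 ≤ 2 * (m : ℝ) / N := by positivity
    rw [abs_le]; constructor <;> linarith
  have e6 : ‖Wk k 0 N‖ = ‖((N : ℂ) ^ (k ^ 2))⁻¹‖ * ∫ U, (av k N 1 U).re ∂(haarU N) := by
    rw [hW 0, norm_mul]
    congr 1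
    have e7 : (cexp (-(I * ((0:ℝ):ℂ) / N))) = 1 := by simp
    rw [e7]
    have e8 : ∀ U : Matrix.unitaryGroup (Fin N) ℂ, av k N 1 U = (((av k N 1 U).re : ℝ) : ℂ) := by
      intro U
      unfold av
      simp only [one_pow, mul_one]
      rw [← Complex.ofReal_sum, Complex.ofReal_re]
    have e9 : ∫ U, av k N 1 U ∂(haarU N) = ((∫ U, (av k N 1 U).re ∂(haarU N) : ℝ) : ℂ) := by
      rw [← integral_complex_ofReal]
      exact integral_congr_ae (Eventually.of_forall e8)
    rw [e9, Complex.norm_real, Real.norm_of_nonneg]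
    refine integral_nonneg fun U => ?_
    unfold av
    simp only [one_pow, mul_one]
    rw [← Complex.ofReal_sum, Complex.ofReal_re]
    exact Finset.sum_nonneg fun m _ => by positivity
  rw [e1, norm_mul, e6]
  have e10 : ‖∫ U, ∑ j ∈ s, c j * (cexp (I * k * α j) * av k N (cexp (-(I * α j / N))) U) ∂(haarU N)‖ ≤
      S * ∫ U, (av k N 1 U).re ∂(haarU N) := by
    rw [← integral_const_mul]
    refine norm_integral_le_of_norm_le ?_ (Eventually.of_forall e2)
    exact ((cont_int (av_cont k N 1)).re).const_mul S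
  calc _ ≤ ‖((N : ℂ) ^ (k ^ 2))⁻¹‖ * (S * ∫ U, (av k N 1 U).re ∂(haarU N)) := by gcongr
    _ = _ := by ring

end

end Pool.Agent.R446.KR
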