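import Pool.Agent.R446.KR.Asm
import Pool.Agent.R446.KR.Rmt

set_option autoImplicit false

/-! Powers of zeta and characteristic polynomials. -/

namespace Pool.Agent.R446.KR

open Complex MeasureTheory Filter Topology Set Pool.Agent.TH535.SM
open scoped ComplexConjugate

noncomputable section

/-- the `k`-th power of zeta on the critical line -/
def zk (k : ℕ) (t : ℝ) : ℂ := ze t ^ k

lemma zk_dat (k : ℕ) {u : ℕ} (hu : 1 ≤ u) : Dat (zk k) (H k u) u k := by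
  obtain ⟨C, p, hC, hb⟩ := ze_bd
  obtain ⟨c, hc, hl⟩ := H_line_close k u
  refine ⟨ze_cont.pow k, ⟨C ^ k, p * k, one_le_pow₀ hC, fun t => ?_⟩, H_PG k hu,
    ⟨c, hc, fun t => ?_⟩, H_right k hu, H_left k hu⟩
  · unfold zk
    rw [norm_pow, ← pow_mul, mul_comm k 2, pow_mul]
    calc (‖ze t‖ ^ 2) ^ k ≤ (C * (1 + |t|) ^ p) ^ k := by gcongr; exact hb t
      _ = _ := by rw [mul_pow, ← pow_mul]
  · have := hl t
    rwa [← norm_pow] at this

lemma zk_hz (k : ℕ) : ∀ u : ℕ, 1 ≤ u → ∃ G, Dat (zk k) G u k := fun _ hu => ⟨_, zk_dat k hu⟩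

theorem W_rel (k : ℕ) {N : ℕ} (hN : 1 ≤ N) (α : ℝ) (s : Finset ℝ) (c : ℝ → ℂ) {S : ℝ}
    (hS : ∀ ξ : ℝ, |ξ| ≤ k → ‖cexp (I * α * ξ) - ∑ a ∈ s, c a * cexp (I * a * ξ)‖ ≤ S) :
    ‖cexp (I * k * α) * Wk k α N - ∑ a ∈ s, c a * (cexp (I * k * a) * Wk k a N)‖ ≤ S * ‖Wk k 0 N‖ := by
  have h := W_trig k hN (Finset.insertNone s) (fun o => o.elim α id)
    (fun o => o.elim 1 (fun a => -c a)) (S := S) (by
      intro ξ hξ
      refine le_of_eq_of_le ?_ (hS ξ hξ)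
      rw [Finset.sum_insertNone]
      simp only [Option.elim_none, Option.elim_some, id, one_mul, neg_mul, Finset.sum_neg_distrib]
      rw [← sub_eq_add_neg])
  refine le_of_eq_of_le ?_ h
  rw [Finset.sum_insertNone]
  simp only [Option.elim_none, Option.elim_some, id, one_mul, neg_mul, Finset.sum_neg_distrib]
  rw [← sub_eq_add_neg]

lemma nexp (k : ℕ) (a : ℝ) : ‖cexp (I * k * a)‖ = 1 := by
  have : (I * k * a : ℂ) = ((k * a : ℝ) : ℂ) * I := by push_cast; ring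
  rw [this, Complex.norm_exp_ofReal_mul_I]

/-- moving the phases into the coefficients -/
lemma phase (k : ℕ) (α : ℝ) (s : Finset ℝ) (c : ℝ → ℂ) (w : ℝ → ℂ) :
    ‖w α - ∑ a ∈ s, (c a * cexp (I * k * (a - α))) * w a‖ =
      ‖cexp (I * k * α) * w α - ∑ a ∈ s, c a * (cexp (I * k * a) * w a)‖ := by
  have e : cexp (I * k * α) * (w α - ∑ a ∈ s, (c a * cexp (I * k * (a - α))) * w a) =
      cexp (I * k * α) * w α - ∑ a ∈ s, c a * (cexp (I * k * a) * w a) := by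
    rw [mul_sub, Finset.mul_sum]
    congr 1
    refine Finset.sum_congr rfl fun a _ => ?_
    have e2 : I * k * a = I * k * α + I * k * (a - α) := by ring
    rw [e2, Complex.exp_add]
    ring
  rw [← e, norm_mul, nexp, one_mul]

/-- both sides satisfy the same approximate linear relations -/
theorem common (k : ℕ) {A : Set ℝ} (hA : Cpl A k) (α : ℝ) {ε : ℝ} (hε : 0 < ε) :
    ∃ (s : Finset ℝ) (c : ℝ → ℂ), (∀ a ∈ s, a ∈ A) ∧
      (∀ N : ℕ, 1 ≤ N → ‖Wk k α N - ∑ a ∈ s, c a * Wk k a N‖ ≤ ε * ‖Wk k 0 N‖) ∧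
      ∃ C X0 : ℝ, ∀ X : ℝ, X0 ≤ X → ∃ E : Set ℝ, MeasurableSet E ∧ E ⊆ Icc X (2 * X) ∧
        volume E ≤ ENNReal.ofReal (C * Real.log X ^ 2) ∧
        ∀ T ∈ Icc X (2 * X), T ∉ E →
          ‖Cor (zk k) (α / Real.log T) T / ((NN (k ^ 2) T : ℝ) : ℂ) -
            ∑ a ∈ s, c a * (Cor (zk k) (a / Real.log T) T / ((NN (k ^ 2) T : ℝ) : ℂ))‖ ≤
            ε * (M (zk k) T / NN (k ^ 2) T + 1) := by
  obtain ⟨s, c, hs, hc⟩ := hA α (ε / 2) (by positivity)
  refine ⟨s, fun a => c a * cexp (I * k * (a - α)), hs, fun N hN => ?_, ?_⟩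
  · rw [phase k α s c (fun a => Wk k a N)]
    refine (W_rel k hN α s c hc).trans ?_
    exact mul_le_mul_of_nonneg_right (by linarith) (norm_nonneg _)
  obtain ⟨C, X0, hC, hX0, h⟩ := rel2 (zk_hz k) (by positivity) hc (ε := ε / 2) (by positivity)
  refine ⟨C, max (max X0 (Real.exp 1)) (C / ε), fun X hX => ?_⟩
  obtain ⟨E, e1, e2, e3, e4⟩ := h X (((le_max_left _ _).trans (le_max_left _ _)).trans hX)
  have hfin : volume E ≠ ⊤ :=
    ne_top_of_le_ne_top (by rw [Real.volume_Icc]; exact ENNReal.ofReal_ne_top) (measure_mono e2)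
  refine ⟨E, e1, e2, ?_, fun T hT hTE => ?_⟩
  · rw [← ENNReal.ofReal_toReal hfin]
    exact ENNReal.ofReal_le_ofReal e3
  have hX1 : Real.exp 1 ≤ T := (((le_max_right _ _).trans (le_max_left _ _)).trans hX).trans hT.1
  have hX2 : C / ε ≤ T := ((le_max_right _ _).trans hX).trans hT.1
  have hT0 : 0 < T := lt_of_lt_of_le (Real.exp_pos 1) hX1
  have hL : 1 ≤ Real.log T := by rwa [Real.le_log_iff_exp_le hT0]
  have hN : T ≤ NN (k ^ 2) T := by
    unfold NN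
    have h2 : (1:ℝ) ≤ Real.log T ^ (k ^ 2) := one_le_pow₀ hL
    nlinarith
  have hN0 : 0 < NN (k ^ 2) T := lt_of_lt_of_le hT0 hN
  rw [phase k α s c (fun a => Cor (zk k) (a / Real.log T) T / ((NN (k ^ 2) T : ℝ) : ℂ))]
  have e5 : cexp (I * k * α) * (Cor (zk k) (α / Real.log T) T / ((NN (k ^ 2) T : ℝ) : ℂ)) -
      ∑ a ∈ s, c a * (cexp (I * k * a) * (Cor (zk k) (a / Real.log T) T / ((NN (k ^ 2) T : ℝ) : ℂ))) =
      Df (zk k) k α s c T / ((NN (k ^ 2) T : ℝ) : ℂ) := by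
    unfold Df
    rw [sub_div, Finset.sum_div]
    congr 1
    · ring
    · exact Finset.sum_congr rfl fun a _ => by ring
  rw [e5, norm_div, Complex.norm_real, Real.norm_of_nonneg hN0.le, div_le_iff₀ hN0]
  have h6 := e4 T hT hTE
  have h7 : ε * (M (zk k) T / NN (k ^ 2) T + 1) * NN (k ^ 2) T = ε * M (zk k) T + ε * NN (k ^ 2) T := by
    field_simp
  rw [h7]
  rw [div_le_iff₀ hε] at hX2
  nlinarith

/-- rigidity for the powers of zeta -/
theorem rigid_zeta (k : ℕ) {A : Set ℝ} (hA : Cpl A k) {α0 : ℝ} (h0A : α0 ∈ A) (h0 : |α0| * k < Real.pi / 2)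
    (b : ℂ) (W : ℝ → ℂ) (hW : ∀ α : ℝ, Tendsto (fun N : ℕ => Wk k α N) atTop (𝓝 (W α)))
    (hlim : ∀ a ∈ A, Tendsto (fun T : ℝ => Cor (zk k) (a / Real.log T) T / ((NN (k ^ 2) T : ℝ) : ℂ)) atTop
      (𝓝 (b * W a))) :
    ∀ α : ℝ, Tendsto (fun T : ℝ => Cor (zk k) (α / Real.log T) T / ((NN (k ^ 2) T : ℝ) : ℂ)) atTop
      (𝓝 (b * W α)) := by
  refine rigid (zk_hz k) hA h0A h0 (G := fun a => b * W a) (g := ‖b‖ * ‖W 0‖) (by positivity) ?_ hlim
  intro α s c S hS0 hS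
  have h1 : ‖cexp (I * k * α) * W α - ∑ a ∈ s, c a * (cexp (I * k * a) * W a)‖ ≤ S * ‖W 0‖ := by
    have l1 : Tendsto (fun N : ℕ => ‖cexp (I * k * α) * Wk k α N - ∑ a ∈ s, c a * (cexp (I * k * a) * Wk k a N)‖)
        atTop (𝓝 ‖cexp (I * k * α) * W α - ∑ a ∈ s, c a * (cexp (I * k * a) * W a)‖) := by
      refine (Tendsto.sub ((hW α).const_mul _) (tendsto_finsetSum _ fun a _ => ?_)).norm
      exact ((hW a).const_mul _).const_mul _
    have l2 : Tendsto (fun N : ℕ => S * ‖Wk k 0 N‖) atTop (𝓝 (S * ‖W 0‖)) := ((hW 0).norm).const_mul S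
    refine le_of_tendsto_of_tendsto l1 l2 ?_
    filter_upwards [eventually_ge_atTop 1] with N hN
    exact W_rel k hN α s c hS
  have e : cexp (I * k * α) * (b * W α) - ∑ a ∈ s, c a * (cexp (I * k * a) * (b * W a)) =
      b * (cexp (I * k * α) * W α - ∑ a ∈ s, c a * (cexp (I * k * a) * W a)) := by
    rw [mul_sub, Finset.mul_sum]
    congr 1
    · ring
    · exact Finset.sum_congr rfl fun a _ => by ring
  rw [e, norm_mul]
  calc ‖b‖ * ‖cexp (I * k * α) * W α - ∑ a ∈ s, c a * (cexp (I * k * a) * W a)‖ ≤ ‖b‖ * (S * ‖W 0‖) := by gcongr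
    _ = S * (‖b‖ * ‖W 0‖) := by ring

end

end Pool.Agent.R446.KR
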