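import Pool.Agent.R446.KR.Fin

set_option autoImplicit false

/-! Convergence of the normalised moments from convergence of shifted moments. -/

namespace Pool.Agent.R446.KR

open Complex MeasureTheory Filter Topology Set Pool.Agent.TH535.SM
open scoped ComplexConjugate

noncomputable section

variable {z : ℝ → ℂ} {K : ℕ}

lemma NN_inf (q : ℕ) : Tendsto (NN q) atTop atTop := by
  refine tendsto_atTop_mono' atTop ?_ tendsto_id
  filter_upwards [eventually_ge_atTop (Real.exp 1)] with T hT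
  have h1 : 1 ≤ Real.log T := by
    rwa [Real.le_log_iff_exp_le (lt_of_lt_of_le (Real.exp_pos 1) hT)]
  have h2 : (1:ℝ) ≤ Real.log T ^ q := one_le_pow₀ h1
  have h3 : 0 < T := lt_of_lt_of_le (Real.exp_pos 1) hT
  unfold NN
  simp only [id]
  nlinarith

/-- the exceptional set statement -/
def Near (z : ℝ → ℂ) (q : ℕ) (l δ : ℝ) : Prop := ∃ C X0 : ℝ, 0 ≤ C ∧ ∀ X : ℝ, X0 ≤ X → ∃ E : Set ℝ,
  E ⊆ Icc X (2 * X) ∧ volume.real E ≤ C * Real.log X ^ 2 ∧
  ∀ T ∈ Icc X (2 * X), T ∉ E → |M z T - l * NN q T| ≤ δ * NN q T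

lemma near_dist {q : ℕ} {l l' δ δ' : ℝ} (h : Near z q l δ) (h' : Near z q l' δ') : |l - l'| ≤ δ + δ' := by
  obtain ⟨C, X0, hC, h1⟩ := h
  obtain ⟨C', X0', hC', h1'⟩ := h'
  have hs := log_sq_small (C + C') (δ := 1 / 2) (by norm_num)
  obtain ⟨X, hX1, hX2, hX3, hX4⟩ := (((hs.and (eventually_ge_atTop X0)).and
    (eventually_ge_atTop X0')).and (eventually_ge_atTop 4)).exists.imp fun X hX =>
      (⟨hX.1.1.1, hX.1.1.2, hX.1.2, hX.2⟩ : _ ∧ _ ∧ _ ∧ _)
  obtain ⟨E, e1, e2, e3⟩ := h1 X hX2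
  obtain ⟨E', e1', e2', e3'⟩ := h1' X hX3
  have hfin : volume (E ∪ E') ≠ ⊤ := ne_top_of_le_ne_top
    (by rw [Real.volume_Icc]; exact ENNReal.ofReal_ne_top) (measure_mono (union_subset e1 e1'))
  have hm : volume.real (E ∪ E') ≤ (C + C') * Real.log X ^ 2 := by
    have := measureReal_union_le (μ := volume) E E'
    linarith
  obtain ⟨T, hTT, hT, hTE⟩ := exists_good (X := X) (a := X) (b := 2 * X) hm hfin (by linarith) le_rfl le_rfl
  have hN : 0 < NN q T := NN_pos q (by linarith [hT.1])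
  have a1 := e3 T hT (fun h => hTE (Or.inl h))
  have a2 := e3' T hT (fun h => hTE (Or.inr h))
  have a3 : |l - l'| * NN q T ≤ (δ + δ') * NN q T := by
    have e : |l - l'| * NN q T = |(M z T - l' * NN q T) - (M z T - l * NN q T)| := by
      rw [← abs_of_pos hN, ← abs_mul, abs_of_pos hN]
      congr 1; ring
    rw [e]
    refine (abs_sub _ _).trans ?_
    linarith
  exact le_of_mul_le_mul_right a3 hN

theorem exists_limit (hz : ∀ u : ℕ, 1 ≤ u → ∃ G, Dat z G u K) {q : ℕ} {A : Set ℝ} (hA : Cpl A K) {α0 : ℝ}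
    (h0A : α0 ∈ A) (h0 : |α0| * K < Real.pi / 2) {G : ℝ → ℂ}
    (hlim : ∀ a ∈ A, Tendsto (fun T : ℝ => Cor z (a / Real.log T) T / ((NN q T : ℝ) : ℂ)) atTop (𝓝 (G a))) :
    ∃ m : ℝ, Tendsto (fun T => M z T / NN q T) atTop (𝓝 m) := by
  obtain ⟨b, hb⟩ : ∃ b : ℝ, ∀ᶠ T : ℝ in atTop, M z T ≤ b * NN q T ∧ 0 ≤ b := by
    have h1 := (hlim α0 h0A).norm.eventually_lt_const (lt_add_one _)
    obtain ⟨C, hC, h2⟩ := mbound hz (q := q) (α0 := α0) (b := ‖G α0‖ + 1) h0 (by
      filter_upwards [h1, eventually_gt_atTop 1] with T h3 h4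
      have hN := NN_pos q h4
      rw [norm_div, Complex.norm_real, Real.norm_of_nonneg hN.le, div_lt_iff₀ hN] at h3
      exact h3.le)
    exact ⟨C, h2.mono fun T h => ⟨h, hC⟩⟩
  have hb0 : 0 ≤ b := by obtain ⟨T, hT⟩ := hb.exists; exact hT.2
  obtain ⟨T2, hT2⟩ := eventually_atTop.1 hb
  -- approximations
  have hap : ∀ η : ℝ, 0 < η → ∃ l : ℝ, Near z q l ((2 * b + 2) * η) := by
    intro η hη0
    obtain ⟨s, c, hs, hc⟩ := hA 0 η hη0
    obtain ⟨C, X0, hC, hX0, h1⟩ := rel2 hz hη0.le hc hη0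
    set S : ℝ → ℂ := fun T => ∑ a ∈ s, c a * (cexp (I * K * a) *
      (Cor z (a / Real.log T) T / ((NN q T : ℝ) : ℂ))) with hS
    have hSl : Tendsto S atTop (𝓝 (∑ a ∈ s, c a * (cexp (I * K * a) * G a))) :=
      tendsto_finsetSum _ fun a ha => ((hlim a (hs a ha)).const_mul _).const_mul _
    obtain ⟨T1, hT1⟩ := (Metric.tendsto_atTop.1 hSl) η hη0
    obtain ⟨T3, hT3⟩ := eventually_atTop.1 ((NN_inf q).eventually_ge_atTop (C / η))
    refine ⟨(∑ a ∈ s, c a * (cexp (I * K * a) * G a)).re, C, max (max X0 T1) (max (max T2 T3) 2), hC,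
      fun X hX => ?_⟩
    have x1 : X0 ≤ X := ((le_max_left _ _).trans (le_max_left _ _)).trans hX
    have x2 : T1 ≤ X := ((le_max_right _ _).trans (le_max_left _ _)).trans hX
    have x3 : T2 ≤ X := (((le_max_left _ _).trans (le_max_left _ _)).trans (le_max_right _ _)).trans hX
    have x4 : T3 ≤ X := (((le_max_right _ _).trans (le_max_left _ _)).trans (le_max_right _ _)).trans hX
    have x5 : 2 ≤ X := ((le_max_right _ _).trans (le_max_right _ _)).trans hX
    obtain ⟨E, -, e2, e3, e4⟩ := h1 X x1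
    refine ⟨E, e2, e3, fun T hT hTE => ?_⟩
    have hN : 0 < NN q T := NN_pos q (by linarith [hT.1])
    have y1 := e4 T hT hTE
    have y2 := hT1 T (x2.trans hT.1)
    have y3 := (hT2 T (x3.trans hT.1)).1
    have y4 := hT3 T (x4.trans hT.1)
    have y5 : ‖Df z K 0 s c T‖ ≤ (2 * b + 1) * η * NN q T := by
      have y8 : (η + η) * M z T ≤ (η + η) * (b * NN q T) := mul_le_mul_of_nonneg_left y3 (by positivity)
      have y9 : C ≤ η * NN q T := by
        rw [div_le_iff₀ hη0] at y4; linarith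
      linarith
    have y6 : ((M z T : ℝ) : ℂ) - ((NN q T : ℝ) : ℂ) * S T = Df z K 0 s c T := by
      have hNc : ((NN q T : ℝ) : ℂ) ≠ 0 := by exact_mod_cast hN.ne'
      unfold Df
      rw [zero_div, Cor_zero, Complex.ofReal_zero, mul_zero, Complex.exp_zero, one_mul, hS, Finset.mul_sum]
      congr 1
      refine Finset.sum_congr rfl fun a _ => ?_
      field_simp
    have y7 : |M z T - NN q T * (S T).re| ≤ (2 * b + 1) * η * NN q T := by
      have h := (Complex.abs_re_le_norm (((M z T : ℝ) : ℂ) - ((NN q T : ℝ) : ℂ) * S T))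
      rw [Complex.sub_re, Complex.ofReal_re, Complex.re_ofReal_mul, y6] at h
      exact h.trans y5
    set L0 := (∑ a ∈ s, c a * (cexp (I * K * a) * G a)) with hL0
    have y8 : |(S T).re - L0.re| ≤ η := by
      rw [dist_eq_norm] at y2
      have h := (Complex.abs_re_le_norm (S T - L0)).trans y2.le
      rwa [Complex.sub_re] at h
    have y9 : M z T - L0.re * NN q T = (M z T - NN q T * (S T).re) + ((S T).re - L0.re) * NN q T := by ring
    rw [y9]
    refine (abs_add_le _ _).trans ?_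
    have y10 : |((S T).re - L0.re) * NN q T| ≤ η * NN q T := by
      rw [abs_mul, abs_of_pos hN]
      exact mul_le_mul_of_nonneg_right y8 hN.le
    linarith
  -- a Cauchy sequence
  choose! l hl using hap
  have hpos : ∀ n : ℕ, (0:ℝ) < 1 / ((n : ℝ) + 1) := fun n => by positivity
  have htz : Tendsto (fun n : ℕ => 1 / ((n : ℝ) + 1)) atTop (𝓝 0) := tendsto_one_div_add_atTop_nhds_zero_nat
  have hcau : CauchySeq (fun n : ℕ => l (1 / ((n : ℝ) + 1))) := by
    refine cauchySeq_of_le_tendsto_0 (fun n : ℕ => (2 * b + 2) * (1 / ((n : ℝ) + 1)) + (2 * b + 2) * (1 / ((n : ℝ) + 1))) ?_ ?_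
    · intro n m N hn hm
      rw [Real.dist_eq]
      refine (near_dist (hl _ (hpos n)) (hl _ (hpos m))).trans ?_
      have hn' : (1:ℝ) / ((n : ℝ) + 1) ≤ 1 / ((N : ℝ) + 1) := by
        have : (N : ℝ) ≤ n := by exact_mod_cast hn
        gcongr
      have hm' : (1:ℝ) / ((m : ℝ) + 1) ≤ 1 / ((N : ℝ) + 1) := by
        have : (N : ℝ) ≤ m := by exact_mod_cast hm
        gcongr
      gcongr
    · have := (htz.const_mul (2 * b + 2)).add (htz.const_mul (2 * b + 2))
      simpa using this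
  obtain ⟨m, hm⟩ := cauchySeq_tendsto_of_complete hcau
  refine ⟨m, ?_⟩
  obtain ⟨G1, D⟩ := hz 1 le_rfl
  refine monotone_step (fun S T _ h => M_mono D h) fun ε hε => ?_
  have hd : ∀ n : ℕ, |l (1 / ((n : ℝ) + 1)) - m| ≤ (2 * b + 2) * (1 / ((n : ℝ) + 1)) := by
    intro n
    have h1 : Tendsto (fun j : ℕ => |l (1 / ((n : ℝ) + 1)) - l (1 / ((j : ℝ) + 1))|) atTop
        (𝓝 |l (1 / ((n : ℝ) + 1)) - m|) := (tendsto_const_nhds.sub hm).abs
    have h2 : Tendsto (fun j : ℕ => (2 * b + 2) * (1 / ((n : ℝ) + 1)) + (2 * b + 2) * (1 / ((j : ℝ) + 1))) atTop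
        (𝓝 ((2 * b + 2) * (1 / ((n : ℝ) + 1)) + (2 * b + 2) * 0)) := tendsto_const_nhds.add (htz.const_mul _)
    rw [mul_zero, add_zero] at h2
    exact le_of_tendsto_of_tendsto' h1 h2 fun j => near_dist (hl _ (hpos n)) (hl _ (hpos j))
  obtain ⟨n, hn⟩ : ∃ n : ℕ, 2 * ((2 * b + 2) * (1 / ((n : ℝ) + 1))) ≤ ε := by
    have h3 : Tendsto (fun n : ℕ => 2 * ((2 * b + 2) * (1 / ((n : ℝ) + 1)))) atTop (𝓝 (2 * ((2 * b + 2) * 0))) :=
      (htz.const_mul _).const_mul _
    rw [mul_zero, mul_zero] at h3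
    exact (h3.eventually_le_const hε).exists
  obtain ⟨C, X0, hC, h4⟩ := hl _ (hpos n)
  refine ⟨C, max X0 2, fun X hX => ?_⟩
  obtain ⟨E, e1, e2, e3⟩ := h4 X ((le_max_left _ _).trans hX)
  refine ⟨E, e1, e2, fun T hT hTE => ?_⟩
  have hN : 0 < NN q T := NN_pos q (by linarith [hT.1, (le_max_right X0 2).trans hX])
  have h5 := e3 T hT hTE
  have h6 : |(l (1 / ((n : ℝ) + 1)) - m) * NN q T| ≤ (2 * b + 2) * (1 / ((n : ℝ) + 1)) * NN q T := by
    rw [abs_mul, abs_of_pos hN]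
    exact mul_le_mul_of_nonneg_right (hd n) hN.le
  have h7 : M z T - m * NN q T = (M z T - l (1 / ((n : ℝ) + 1)) * NN q T) + (l (1 / ((n : ℝ) + 1)) - m) * NN q T := by
    ring
  rw [h7]
  refine (abs_add_le _ _).trans ?_
  have h8 := mul_le_mul_of_nonneg_right hn hN.le
  linarith

end

end Pool.Agent.R446.KR
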