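import Pool.Agent.TH535.SM.A10

set_option autoImplicit false

/-! Trigonometric polynomials in the shift of the correlations. -/

namespace Pool.Agent.R446.KR

open Complex MeasureTheory Filter Topology Set Pool.Agent.TH535.SM
open scoped FourierTransform ComplexConjugate

noncomputable section

variable {z : ℝ → ℂ} {G : ℂ → ℂ} {u K : ℕ}

/-- the spectral side -/
def Sp (F : ℝ → ℂ) (a κ : ℝ) : ℝ := ∫ w, Real.cos (4 * Real.pi * a * w + κ) * ‖𝓕 F w‖ ^ 2

lemma Sp_int {F : ℝ → ℂ} (hF : Dec F) (a κ : ℝ) :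
    Integrable (fun w => Real.cos (4 * Real.pi * a * w + κ) * ‖𝓕 F w‖ ^ 2) := by
  refine ((planch hF).1).mono' ?_ (Eventually.of_forall fun w => ?_)
  · have : Continuous (fun w => Real.cos (4 * Real.pi * a * w + κ) * ‖𝓕 F w‖ ^ 2) := by
      have := ft_cont hF
      fun_prop
    exact this.aestronglyMeasurable
  · rw [norm_mul, Real.norm_eq_abs, Real.norm_of_nonneg (by positivity)]
    exact mul_le_of_le_one_left (by positivity) (Real.abs_cos_le_one _)

lemma U_Sp {F : ℝ → ℂ} (hF : Dec F) (a κ : ℝ) :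
    ∫ t, ‖U a κ F t‖ ^ 2 = 2 * (∫ t, ‖F t‖ ^ 2) + 2 * Sp F a κ := by
  rw [U_norm hF, ← (planch hF).2]
  unfold Sp mu
  rw [← integral_const_mul, ← integral_const_mul, ← integral_add ((planch hF).1.const_mul 2)
    ((Sp_int hF a κ).const_mul 2)]
  refine integral_congr_ae (Eventually.of_forall fun w => ?_)
  simp only
  ring

lemma Sp_pi (F : ℝ → ℂ) (a κ : ℝ) : Sp F a (κ + Real.pi) = -Sp F a κ := by
  unfold Sp
  rw [← integral_neg]
  refine integral_congr_ae (Eventually.of_forall fun w => ?_)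
  simp only
  rw [← add_assoc, Real.cos_add_pi]
  ring

lemma re_pi (κ : ℝ) (w : ℂ) : (cexp ((κ + Real.pi : ℝ) * I) * w).re = -(cexp (κ * I) * w).re := by
  push_cast
  rw [add_mul, Complex.exp_add, Complex.exp_pi_mul_I]
  simp

/-- the correlation against its spectral side -/
theorem spec_close (D : Dat z G u K) {ε : ℝ} (hε : 0 < ε) (hε1 : ε < 1) :
    ∃ C T0 : ℝ, 0 ≤ C ∧ 1 ≤ T0 ∧ ∀ T : ℝ, T0 ≤ T → ∀ a κ : ℝ, |a| ≤ 1 →
      |(cexp (κ * I) * Cor z a T).re - Sp (Fn G T 0) a κ| ≤ ε * M z T + C * (1 + B z T) := by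
  obtain ⟨η, hη⟩ : ∃ η, η = ε / 5 := ⟨_, rfl⟩
  have hη0 : 0 < η := by rw [hη]; positivity
  have hη1 : η < 1 := by rw [hη]; linarith
  obtain ⟨C1, T1, hC1, hT1, n1⟩ := norm_lower D hη0 hη1
  obtain ⟨C2, T2, hC2, hT2, n2⟩ := norm_upper D hη0 hη1
  refine ⟨2 * C2 + C1, max T1 T2, by positivity, le_max_of_le_left hT1, fun T hT => ?_⟩
  have hTT1 : T1 ≤ T := (le_max_left _ _).trans hT
  have hTT2 : T2 ≤ T := (le_max_right _ _).trans hT
  have hTp : 1 ≤ T := hT1.trans hTT1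
  have hdec := Fn_dec D.pg hTp (r := 0) (by simp) (by positivity)
  have hM := M_nonneg z (T := T) (by linarith)
  have hB := B_nonneg z T
  -- one-sided bounds
  have hlow : ∀ a κ : ℝ, |a| ≤ 1 → -(2 * M z T + C2 * (1 + B z T)) ≤ (cexp (κ * I) * Cor z a T).re := by
    intro a κ ha
    have m2 := n2 T hTT2 a κ ha
    have h0 : 0 ≤ ∫ t, ‖U a κ (Fn G T 0) t‖ ^ 2 := integral_nonneg fun t => by positivity
    have h1 : 0 ≤ (1 + η) * (2 * M z T + 2 * (cexp (κ * I) * Cor z a T).re) + η * M z T +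
      C2 * (1 + B z T) := h0.trans m2
    have h2 : 0 ≤ C2 * (1 + B z T) := by positivity
    by_contra hcon
    push Not at hcon
    obtain ⟨R, hR⟩ : ∃ R, R = (cexp (κ * I) * Cor z a T).re := ⟨_, rfl⟩
    rw [← hR] at h1 hcon
    have h3 : 2 * M z T + 2 * R ≤ -2 * M z T - 2 * (C2 * (1 + B z T)) := by linarith
    have h4 : (1 + η) * (2 * M z T + 2 * R) ≤ 1 * (2 * M z T + 2 * R) := by
      refine mul_le_mul_of_nonpos_right (by linarith) (by nlinarith)
    have h5 : η * M z T ≤ 1 * M z T := mul_le_mul_of_nonneg_right hη1.le hM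
    have h6 : 2 * M z T + 2 * R < -(2 * M z T) - 2 * (C2 * (1 + B z T)) := by linarith
    linarith
  have hup : ∀ a κ : ℝ, |a| ≤ 1 → (cexp (κ * I) * Cor z a T).re ≤ 2 * M z T + C2 * (1 + B z T) := by
    intro a κ ha
    have h := hlow a (κ + Real.pi) ha
    rw [re_pi] at h
    linarith
  have hone : ∀ a κ : ℝ, |a| ≤ 1 → Sp (Fn G T 0) a κ - (cexp (κ * I) * Cor z a T).re ≤
      ε * M z T + (2 * C2 + C1) * (1 + B z T) := by
    intro a κ ha
    have m1 := n1 T hTT1
    have m2 := n2 T hTT2 a κ ha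
    rw [U_Sp hdec] at m2
    have h3 := hup a κ ha
    obtain ⟨R, hR⟩ : ∃ R, R = (cexp (κ * I) * Cor z a T).re := ⟨_, rfl⟩
    rw [← hR] at m2 h3 ⊢
    have h4 : η * R ≤ η * (2 * M z T + C2 * (1 + B z T)) := mul_le_mul_of_nonneg_left h3 hη0.le
    have h2 : 0 ≤ C2 * (1 + B z T) := by positivity
    have h5 : η * (C2 * (1 + B z T)) ≤ 1 * (C2 * (1 + B z T)) := mul_le_mul_of_nonneg_right hη1.le h2
    have h6 : ε = 5 * η := by rw [hη]; ring
    rw [h6]
    have h7 : 0 ≤ η * M z T := by positivity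
    nlinarith
  intro a κ ha
  rw [abs_le]
  constructor
  · have := hone a κ ha
    linarith
  · have := hone a (κ + Real.pi) ha
    rw [Sp_pi, re_pi] at this
    linarith

/-- the trigonometric polynomial inequality -/
theorem trig_bound (hz : ∀ u : ℕ, 1 ≤ u → ∃ G, Dat z G u K) {ι : Type} (s : Finset ι) (α : ι → ℝ)
    (c : ι → ℂ) {S : ℝ} (hS0 : 0 ≤ S)
    (hS : ∀ ξ : ℝ, |ξ| ≤ K → ‖∑ j ∈ s, c j * cexp (I * α j * ξ)‖ ≤ S) {ε : ℝ} (hε : 0 < ε) :
    ∃ C T0 : ℝ, 0 ≤ C ∧ 1 ≤ T0 ∧ ∀ T : ℝ, T0 ≤ T →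
      ‖∑ j ∈ s, c j * (cexp (I * K * α j) * Cor z (α j / Real.log T) T)‖ ≤
        (S + ε) * M z T + C * (1 + B z T) := by
  classical
  set Λ : ℝ := ∑ j ∈ s, ‖c j‖ * |α j| with hΛ
  set N1 : ℝ := ∑ j ∈ s, ‖c j‖ with hN1
  set A1 : ℝ := ∑ j ∈ s, |α j| with hA1
  have hΛ0 : 0 ≤ Λ := Finset.sum_nonneg fun j _ => by positivity
  have hN0 : 0 ≤ N1 := Finset.sum_nonneg fun j _ => by positivity
  have hA0 : 0 ≤ A1 := Finset.sum_nonneg fun j _ => by positivity
  set δ : ℝ := ε / (4 * (Λ + 1)) with hδ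
  have hδ0 : 0 < δ := by positivity
  have hδ1 : 2 * δ * Λ ≤ ε / 2 := by
    rw [hδ]
    have : 2 * (ε / (4 * (Λ + 1))) * Λ = (ε / 2) * (Λ / (Λ + 1)) := by field_simp; ring
    rw [this]
    have h1 : Λ / (Λ + 1) ≤ 1 := by rw [div_le_one (by linarith)]; linarith
    nlinarith
  obtain ⟨u, hu⟩ := exists_nat_ge (max 1 (1 / δ))
  have hu1 : 1 ≤ u := by
    have : (1:ℝ) ≤ u := (le_max_left _ _).trans hu
    exact_mod_cast this
  have hu2 : 1 ≤ δ * u := by
    have : 1 / δ ≤ u := (le_max_right _ _).trans hu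
    rw [div_le_iff₀ hδ0] at this
    linarith
  obtain ⟨G, D⟩ := hz u hu1
  obtain ⟨Cr, hCr, hr⟩ := out_right D hδ0 hu2
  obtain ⟨Cl, hCl, hl⟩ := out_left D hδ0 hu2
  set η : ℝ := min (1 / 2) (ε / (2 * (S + ε + N1 + 1))) with hη
  have hη0 : 0 < η := lt_min (by norm_num) (by positivity)
  have hη1 : η < 1 := lt_of_le_of_lt (min_le_left _ _) (by norm_num)
  have hη2 : (S + ε / 2 + N1) * η ≤ ε / 2 := by
    have h1 : η ≤ ε / (2 * (S + ε + N1 + 1)) := min_le_right _ _
    rw [le_div_iff₀ (by positivity)] at h1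
    nlinarith
  obtain ⟨C1, T1, hC1, hT1, h1⟩ := spec_close D hη0 hη1
  refine ⟨(S + ε / 2 + N1) * C1 + N1 * (Cl + Cr), max T1 (Real.exp (A1 + 1)), by positivity,
    le_max_of_le_left hT1, fun T hT => ?_⟩
  have hTT1 : T1 ≤ T := (le_max_left _ _).trans hT
  have hTe : Real.exp (A1 + 1) ≤ T := (le_max_right _ _).trans hT
  have hTp : 1 ≤ T := hT1.trans hTT1
  have hT0 : 0 < T := by linarith
  have hL : A1 + 1 ≤ Real.log T := by rwa [Real.le_log_iff_exp_le hT0]
  have hL0 : 0 < Real.log T := by linarith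
  set L := Real.log T with hLd
  have hdec := Fn_dec D.pg hTp (r := 0) (by simp) (by positivity)
  set F := Fn G T 0 with hF
  have hM := M_nonneg z (T := T) (by linarith)
  have hB := B_nonneg z T
  have ha : ∀ j ∈ s, |α j / L| ≤ 1 := by
    intro j hj
    rw [abs_div, abs_of_pos hL0, div_le_one hL0]
    have : |α j| ≤ A1 := Finset.single_le_sum (f := fun j => |α j|) (fun _ _ => abs_nonneg _) hj
    linarith
  -- the total mass
  have hI : ∫ t, ‖F t‖ ^ 2 ≤ (1 + η) * M z T + C1 * (1 + B z T) := by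
    have h2 := h1 T hTT1 0 0 (by simp)
    have e1 : Sp F 0 0 = ∫ t, ‖F t‖ ^ 2 := by
      rw [← (planch hdec).2]
      unfold Sp
      refine integral_congr_ae (Eventually.of_forall fun w => ?_)
      simp
    have e2 : (cexp ((0:ℝ) * I) * Cor z 0 T).re = M z T := by
      simp only [ofReal_zero, zero_mul, Complex.exp_zero, one_mul]
      unfold Cor M
      have e : ∫ t in (0:ℝ)..T, z (t + 0) * conj (z (t + -0)) =
          ((∫ t in (0:ℝ)..T, ‖z t‖ ^ 2 : ℝ) : ℂ) := by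
        rw [← intervalIntegral.integral_ofReal]
        refine intervalIntegral.integral_congr fun t _ => ?_
        simp only [neg_zero, add_zero]
        rw [Complex.mul_conj, Complex.normSq_eq_norm_sq]
      rw [e, Complex.ofReal_re]
    rw [e1, e2] at h2
    have := (abs_le.1 h2).1
    linarith
  -- mass outside
  have hout : ms F (Ioo (-((K + δ) * L / (2 * Real.pi))) (δ * L / (2 * Real.pi)))ᶜ ≤ Cl + Cr := by
    refine (ms_union hdec (A1 := Iic (-((K + δ) * L / (2 * Real.pi))))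
      (A2 := Ici (δ * L / (2 * Real.pi))) measurableSet_Iic measurableSet_Ici ?_).trans
      (add_le_add (hl T hTp) (hr T hTp))
    intro w hw
    simp only [mem_compl_iff, mem_Ioo, not_and_or, not_lt] at hw
    exact hw
  set J := Ioo (-((K + δ) * L / (2 * Real.pi))) (δ * L / (2 * Real.pi)) with hJ
  -- choose the phase
  set Z : ℂ := ∑ j ∈ s, c j * (cexp (I * K * α j) * Cor z (α j / L) T) with hZ
  set θ : ℝ := -arg Z with hθ
  have hZn : (cexp (θ * I) * Z).re = ‖Z‖ := by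
    have h2 : cexp (θ * I) * Z = ((‖Z‖ : ℝ) : ℂ) := by
      conv_lhs => rw [← Complex.norm_mul_exp_arg_mul_I Z]
      rw [mul_left_comm, ← Complex.exp_add, hθ]
      push_cast
      rw [neg_mul, neg_add_cancel, Complex.exp_zero, mul_one]
    rw [h2, Complex.ofReal_re]
  have hterm : ∀ j ∈ s, (cexp (θ * I) * (c j * (cexp (I * K * α j) * Cor z (α j / L) T))).re ≤
      ‖c j‖ * Sp F (α j / L) (θ + arg (c j) + K * α j) + ‖c j‖ * (η * M z T + C1 * (1 + B z T)) := by
    intro j hj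
    have h2 := h1 T hTT1 (α j / L) (θ + arg (c j) + K * α j) (ha j hj)
    have e1 : cexp (θ * I) * (c j * (cexp (I * K * α j) * Cor z (α j / L) T)) =
        ((‖c j‖ : ℝ) : ℂ) * (cexp ((θ + arg (c j) + K * α j : ℝ) * I) * Cor z (α j / L) T) := by
      conv_lhs => rw [← Complex.norm_mul_exp_arg_mul_I (c j)]
      push_cast
      rw [add_mul, add_mul, Complex.exp_add, Complex.exp_add,
        show (I * K * α j : ℂ) = K * α j * I by ring]
      ring
    rw [e1, Complex.re_ofReal_mul, ← mul_add]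
    refine mul_le_mul_of_nonneg_left ?_ (norm_nonneg _)
    have := (abs_le.1 h2).2
    linarith
  have hsum : ‖Z‖ ≤ ∑ j ∈ s, ‖c j‖ * Sp F (α j / L) (θ + arg (c j) + K * α j) +
      N1 * (η * M z T + C1 * (1 + B z T)) := by
    rw [← hZn, hZ, Finset.mul_sum, Complex.re_sum, hN1, Finset.sum_mul, ← Finset.sum_add_distrib]
    exact Finset.sum_le_sum hterm
  -- the spectral sum
  have hw_eq : ∀ w : ℝ, ∑ j ∈ s, ‖c j‖ * Real.cos (4 * Real.pi * (α j / L) * w + (θ + arg (c j) + K * α j)) =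
      (cexp (θ * I) * ∑ j ∈ s, c j * cexp (I * α j * ((K + 4 * Real.pi * w / L : ℝ) : ℂ))).re := by
    intro w
    rw [Finset.mul_sum, Complex.re_sum]
    refine Finset.sum_congr rfl fun j _ => ?_
    have e1 : cexp (θ * I) * (c j * cexp (I * α j * ((K + 4 * Real.pi * w / L : ℝ) : ℂ))) =
        ((‖c j‖ : ℝ) : ℂ) * cexp ((4 * Real.pi * (α j / L) * w + (θ + arg (c j) + K * α j) : ℝ) * I) := by
      conv_lhs => rw [← Complex.norm_mul_exp_arg_mul_I (c j)]
      have hLc : (L : ℂ) ≠ 0 := by exact_mod_cast hL0.ne'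
      have e2 : (((4 * Real.pi * (α j / L) * w + (θ + arg (c j) + K * α j) : ℝ) : ℂ) * I) =
          θ * I + (arg (c j) * I + I * α j * ((K + 4 * Real.pi * w / L : ℝ) : ℂ)) := by
        push_cast
        field_simp
        ring
      rw [e2, Complex.exp_add, Complex.exp_add]
      ring
    rw [e1, Complex.re_ofReal_mul, Complex.exp_ofReal_mul_I_re]
  have hSp : ∑ j ∈ s, ‖c j‖ * Sp F (α j / L) (θ + arg (c j) + K * α j) =
      ∫ w, (∑ j ∈ s, ‖c j‖ * Real.cos (4 * Real.pi * (α j / L) * w + (θ + arg (c j) + K * α j))) * ‖𝓕 F w‖ ^ 2 := by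
    unfold Sp
    have e1 : ∀ w : ℝ, (∑ j ∈ s, ‖c j‖ * Real.cos (4 * Real.pi * (α j / L) * w + (θ + arg (c j) + K * α j))) *
        ‖𝓕 F w‖ ^ 2 = ∑ j ∈ s, ‖c j‖ * (Real.cos (4 * Real.pi * (α j / L) * w + (θ + arg (c j) + K * α j)) *
        ‖𝓕 F w‖ ^ 2) := by
      intro w
      rw [Finset.sum_mul]
      exact Finset.sum_congr rfl fun j _ => by ring
    simp_rw [e1]
    rw [integral_finsetSum _ (fun j _ => (Sp_int hdec _ _).const_mul _)]
    exact Finset.sum_congr rfl fun j _ => (integral_const_mul _ _).symm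
  have hPin : ∀ w ∈ J, (∑ j ∈ s, ‖c j‖ * Real.cos (4 * Real.pi * (α j / L) * w + (θ + arg (c j) + K * α j))) ≤
      S + ε / 2 := by
    intro w hw
    rw [hw_eq]
    set ξ : ℝ := K + 4 * Real.pi * w / L with hξ
    have hpi := Real.pi_pos
    have hK0 : (0:ℝ) ≤ K := Nat.cast_nonneg K
    have hξ1 : -(K + 2 * δ) < ξ := by
      have h2 : -((K + δ) * L / (2 * Real.pi)) * (4 * Real.pi / L) < w * (4 * Real.pi / L) :=
        mul_lt_mul_of_pos_right hw.1 (by positivity)
      have e3 : -((K + δ) * L / (2 * Real.pi)) * (4 * Real.pi / L) = -(2 * (K + δ)) := by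
        field_simp; ring
      rw [e3] at h2
      have e4 : w * (4 * Real.pi / L) = 4 * Real.pi * w / L := by ring
      rw [e4] at h2
      rw [hξ]; linarith
    have hξ2 : ξ < K + 2 * δ := by
      have h2 : w * (4 * Real.pi / L) < δ * L / (2 * Real.pi) * (4 * Real.pi / L) :=
        mul_lt_mul_of_pos_right hw.2 (by positivity)
      have e3 : δ * L / (2 * Real.pi) * (4 * Real.pi / L) = 2 * δ := by
        field_simp; ring
      rw [e3] at h2
      have e4 : w * (4 * Real.pi / L) = 4 * Real.pi * w / L := by ring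
      rw [e4] at h2
      rw [hξ]; linarith
    -- the nearest point
    set ξ' : ℝ := max (-(K:ℝ)) (min K ξ) with hξ'
    have hn1 : |ξ'| ≤ K := by
      rw [abs_le]
      refine ⟨le_max_left _ _, max_le (by linarith) (min_le_left _ _)⟩
    have hn2 : |ξ - ξ'| ≤ 2 * δ := by
      rw [hξ', abs_le]
      rcases le_total (K:ℝ) ξ with h3 | h3
      · rw [min_eq_left h3, max_eq_right (by linarith)]
        constructor <;> linarith
      · rw [min_eq_right h3]
        rcases le_total (-(K:ℝ)) ξ with h4 | h4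
        · rw [max_eq_right h4]; constructor <;> linarith
        · rw [max_eq_left h4]; constructor <;> linarith
    have h5 : ‖∑ j ∈ s, c j * cexp (I * α j * (ξ : ℂ)) - ∑ j ∈ s, c j * cexp (I * α j * (ξ' : ℂ))‖ ≤
        2 * δ * Λ := by
      rw [← Finset.sum_sub_distrib, hΛ, Finset.mul_sum]
      refine (norm_sum_le _ _).trans (Finset.sum_le_sum fun j _ => ?_)
      rw [← mul_sub, norm_mul]
      have h6 : ‖cexp (I * α j * (ξ : ℂ)) - cexp (I * α j * (ξ' : ℂ))‖ ≤ |α j| * |ξ - ξ'| := by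
        have e5 : cexp (I * α j * (ξ : ℂ)) - cexp (I * α j * (ξ' : ℂ)) =
            cexp ((α j * ξ' : ℝ) * I) * (cexp (I * ((α j * (ξ - ξ') : ℝ) : ℂ)) - 1) := by
          rw [mul_sub, ← Complex.exp_add, mul_one]
          congr 2
          · push_cast; ring
          · push_cast; ring
        rw [e5, norm_mul, Complex.norm_exp_ofReal_mul_I, one_mul]
        refine (Real.norm_exp_I_mul_ofReal_sub_one_le).trans ?_
        rw [Real.norm_eq_abs, abs_mul]
      calc ‖c j‖ * ‖cexp (I * α j * (ξ : ℂ)) - cexp (I * α j * (ξ' : ℂ))‖ ≤ ‖c j‖ * (|α j| * |ξ - ξ'|) := by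
            gcongr
        _ ≤ ‖c j‖ * (|α j| * (2 * δ)) := by gcongr
        _ = 2 * δ * (‖c j‖ * |α j|) := by ring
    have h7 := hS ξ' hn1
    have h8 : ‖∑ j ∈ s, c j * cexp (I * α j * (ξ : ℂ))‖ ≤ S + ε / 2 := by
      have := norm_sub_norm_le (∑ j ∈ s, c j * cexp (I * α j * (ξ : ℂ)))
        (∑ j ∈ s, c j * cexp (I * α j * (ξ' : ℂ)))
      linarith
    refine (Complex.re_le_norm _).trans ?_
    rw [norm_mul, Complex.norm_exp_ofReal_mul_I, one_mul]
    exact h8
  have hPall : ∀ w : ℝ, (∑ j ∈ s, ‖c j‖ * Real.cos (4 * Real.pi * (α j / L) * w + (θ + arg (c j) + K * α j))) ≤ N1 := by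
    intro w
    rw [hN1]
    refine Finset.sum_le_sum fun j _ => mul_le_of_le_one_right (norm_nonneg _) (Real.cos_le_one _)
  have hfin : ∫ w, (∑ j ∈ s, ‖c j‖ * Real.cos (4 * Real.pi * (α j / L) * w + (θ + arg (c j) + K * α j))) * ‖𝓕 F w‖ ^ 2 ≤
      (S + ε / 2) * (∫ t, ‖F t‖ ^ 2) + N1 * (Cl + Cr) := by
    have hI1 := (planch hdec).1
    have hIa : Integrable (fun w => (∑ j ∈ s, ‖c j‖ * Real.cos (4 * Real.pi * (α j / L) * w +
        (θ + arg (c j) + K * α j))) * ‖𝓕 F w‖ ^ 2) := by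
      have e1 : (fun w : ℝ => (∑ j ∈ s, ‖c j‖ * Real.cos (4 * Real.pi * (α j / L) * w + (θ + arg (c j) + K * α j))) *
        ‖𝓕 F w‖ ^ 2) = fun w => ∑ j ∈ s, ‖c j‖ * (Real.cos (4 * Real.pi * (α j / L) * w + (θ + arg (c j) + K * α j)) *
        ‖𝓕 F w‖ ^ 2) := by
        funext w
        rw [Finset.sum_mul]
        exact Finset.sum_congr rfl fun j _ => by ring
      rw [e1]
      exact integrable_finsetSum _ fun j _ => (Sp_int hdec _ _).const_mul _
    rw [← integral_add_compl (s := J) measurableSet_Ioo hIa, ← (planch hdec).2]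
    have q1 : ∫ w in J, (∑ j ∈ s, ‖c j‖ * Real.cos (4 * Real.pi * (α j / L) * w +
        (θ + arg (c j) + K * α j))) * ‖𝓕 F w‖ ^ 2 ≤ (S + ε / 2) * ∫ w, ‖𝓕 F w‖ ^ 2 := by
      calc _ ≤ ∫ w in J, (S + ε / 2) * ‖𝓕 F w‖ ^ 2 := by
            refine setIntegral_mono_on hIa.integrableOn (hI1.const_mul _).integrableOn
              measurableSet_Ioo fun w hw => ?_
            exact mul_le_mul_of_nonneg_right (hPin w hw) (by positivity)
        _ = (S + ε / 2) * ∫ w in J, ‖𝓕 F w‖ ^ 2 := integral_const_mul _ _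
        _ ≤ _ := by
            refine mul_le_mul_of_nonneg_left ?_ (by positivity)
            exact setIntegral_le_integral hI1 (Eventually.of_forall fun w => by positivity)
    have q2 : ∫ w in Jᶜ, (∑ j ∈ s, ‖c j‖ * Real.cos (4 * Real.pi * (α j / L) * w +
        (θ + arg (c j) + K * α j))) * ‖𝓕 F w‖ ^ 2 ≤ N1 * (Cl + Cr) := by
      calc _ ≤ ∫ w in Jᶜ, N1 * ‖𝓕 F w‖ ^ 2 := by
            refine setIntegral_mono_on hIa.integrableOn (hI1.const_mul _).integrableOn
              measurableSet_Ioo.compl fun w _ => ?_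
            exact mul_le_mul_of_nonneg_right (hPall w) (by positivity)
        _ = N1 * ms F Jᶜ := integral_const_mul _ _
        _ ≤ _ := mul_le_mul_of_nonneg_left hout hN0
    exact add_le_add q1 q2
  rw [hSp] at hsum
  have h9 : (S + ε / 2) * (∫ t, ‖F t‖ ^ 2) ≤ (S + ε / 2) * ((1 + η) * M z T + C1 * (1 + B z T)) :=
    mul_le_mul_of_nonneg_left hI (by positivity)
  have h10 : (S + ε / 2 + N1) * η * M z T ≤ ε / 2 * M z T := mul_le_mul_of_nonneg_right hη2 hM
  have h11 : 0 ≤ N1 * (Cl + Cr) * B z T := by positivity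
  calc ‖Z‖ ≤ (S + ε / 2) * ((1 + η) * M z T + C1 * (1 + B z T)) + N1 * (Cl + Cr) +
        N1 * (η * M z T + C1 * (1 + B z T)) := by linarith
    _ = (S + ε / 2) * M z T + (S + ε / 2 + N1) * η * M z T + (S + ε / 2 + N1) * C1 * (1 + B z T) +
        N1 * (Cl + Cr) := by ring
    _ ≤ (S + ε) * M z T + ((S + ε / 2 + N1) * C1 + N1 * (Cl + Cr)) * (1 + B z T) := by linarith

end

end Pool.Agent.R446.KR
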